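import Pool.Agent.Helper53_DP.Path

/-!
# All local maxima of the maximal function attached: the sharp constant
-/

set_option autoImplicit false

open Finset

namespace Pool.Agent.Helper53_DP

open Pool.Agent.Helper51_Max

variable {N : ℕ} {g M : ℕ → ℝ}

/-- the variation is at most twice the sum -/
theorem vr_le_sm {F : ℤ → ℝ} {a b : ℤ} {c : ℝ} (hab : a ≤ b) (h : ∀ x, a ≤ x → x ≤ b → c ≤ F x) :
    vr F a b ≤ 2 * (sm F a (b + 1) - ((b : ℝ) + 1 - a) * c) - (F a - c) - (F b - c) := by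
  revert h
  refine up (a := a) (P := fun b => (∀ x, a ≤ x → x ≤ b → c ≤ F x) →
    vr F a b ≤ 2 * (sm F a (b + 1) - ((b : ℝ) + 1 - a) * c) - (F a - c) - (F b - c)) ?_ ?_ hab
  · intro _
    show vr F a a ≤ 2 * (sm F a (a + 1) - ((a : ℝ) + 1 - a) * c) - (F a - c) - (F a - c)
    rw [vr_self, sm_succ _ le_rfl, sm_self]
    have : (a : ℝ) + 1 - a = 1 := by ring
    rw [this]
    linarith
  · intro b hb ih h
    show vr F a (b + 1) ≤ 2 * (sm F a (b + 1 + 1) - (((b + 1 : ℤ) : ℝ) + 1 - a) * c) -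
      (F a - c) - (F (b + 1) - c)
    have h1 := ih fun x hx hx' => h x hx (by omega)
    have h2 := h b hb (by omega)
    have h3 := h (b + 1) (by omega) le_rfl
    have h4 : |F (b + 1) - F b| ≤ (F (b + 1) - c) + (F b - c) := by
      rw [abs_le]
      constructor <;> linarith
    rw [vr_succ _ hb, sm_succ _ (show a ≤ b + 1 by omega)]
    push_cast
    linarith

/-- the truncated ball of radius `ρ` around `x` -/
theorem tb (h : IsMax N g M) {x ρ lo hi : ℤ} (hx : 0 ≤ x) (hx' : x ≤ N) (hρ : 0 ≤ ρ)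
    (hlo : lo = max (x - ρ) 0) (hhi : hi = min (x + ρ) N) :
    sm (zx N g) lo (hi + 1) ≤ ((hi : ℝ) + 1 - lo) * zx N M x := by
  have h1 := h.le x.toNat (by omega) ρ.toNat
  have h2 : I N x.toNat ρ.toNat = Ico lo.toNat (hi.toNat + 1) := by
    ext i
    simp only [I, mem_Icc, mem_Ico]
    omega
  have h3 : ((hi.toNat + 1 : ℕ) : ℤ) = hi + 1 := by omega
  have h4 : ((lo.toNat : ℕ) : ℤ) = lo := by omega
  have h5 : (((Ico lo.toNat (hi.toNat + 1)).card : ℕ) : ℝ) = (hi : ℝ) + 1 - lo := by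
    rw [Nat.card_Ico]
    have h6 : ((hi.toNat + 1 - lo.toNat : ℕ) : ℤ) = hi + 1 - lo := by omega
    exact_mod_cast congrArg (fun n : ℤ => (n : ℝ)) h6
  rw [h2, h5, ← sm_zx (N := N) (by omega), h3, h4] at h1
  rw [zx_toNat hx hx']
  linarith

section

variable (h : IsMax N g M)

include h

theorem F_nonneg (x : ℤ) : 0 ≤ zx N g x := by
  unfold zx
  split_ifs
  · exact h.nonneg _
  · exact le_rfl

theorem Mx_nonneg (x : ℤ) : 0 ≤ zx N M x := by
  unfold zx
  split_ifs with h1
  · exact h.M_nonneg (by omega)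
  · exact le_rfl

theorem F_le_M (x : ℤ) : zx N g x ≤ zx N M x := by
  unfold zx
  split_ifs with h1
  · exact g_le h (by omega)
  · exact le_rfl

/-- lower bound for the maximal function right of `t` -/
theorem num {t v : ℤ} {c : ℝ} (ht : 0 ≤ t) (htv : t ≤ v) (hv : v ≤ N) (hc : 0 ≤ c)
    (hcv : c ≤ zx N g v) (hE : 0 ≤ sm (zx N g) t (N + 1) - ((N : ℝ) + 1 - t) * c) :
    sm (zx N g) t (N + 1) - ((N : ℝ) + 1 - t) * c - ((N : ℝ) - t) * c ≤
      2 * ((N : ℝ) + 1) * (zx N M v - c) := by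
  have hvM := F_le_M h v
  set E := sm (zx N g) t (N + 1) - ((N : ℝ) + 1 - t) * c with hEdef
  set m := zx N M v with hm
  have c0 : (0 : ℝ) ≤ t := by exact_mod_cast ht
  have c1 : (t : ℝ) ≤ v := by exact_mod_cast htv
  have c2 : (v : ℝ) ≤ N := by exact_mod_cast hv
  have hN : (0 : ℝ) ≤ N := Nat.cast_nonneg N
  rcases le_or_gt E (((N : ℝ) - t) * c) with h1 | h1
  · have h2 : 0 ≤ 2 * ((N : ℝ) + 1) * (m - c) := mul_nonneg (by linarith) (by linarith)
    linarith
  rcases le_or_gt (N - v) (v - t) with h2 | h2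
  · -- the ball `[t, N]`
    have h3 := tb h (x := v) (ρ := v - t) (lo := t) (hi := N) (by omega) hv (by omega)
      (by omega) (by omega)
    push_cast at h3
    rw [← hm] at h3
    have h4 : E ≤ ((N : ℝ) + 1 - t) * (m - c) := by
      rw [hEdef]; linarith
    have h5 : 0 ≤ m - c := by linarith
    have h6 : ((N : ℝ) + 1 - t) * (m - c) ≤ ((N : ℝ) + 1) * (m - c) :=
      mul_le_mul_of_nonneg_right (by linarith) h5
    have h7 : 0 ≤ ((N : ℝ) - t) * c := mul_nonneg (by linarith) hc
    linarith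
  · rcases le_or_gt (0 : ℤ) (2 * v - N) with h3 | h3
    · -- the ball `[2 v - N, N]`
      have h4 := tb h (x := v) (ρ := N - v) (lo := 2 * v - N) (hi := N) (by omega) hv (by omega)
        (by omega) (by omega)
      have h5 := sm_add (zx N g) (show 2 * v - N ≤ t by omega) (show t ≤ (N : ℤ) + 1 by omega)
      have h6 := le_sm (F := zx N g) (c := 0) (show 2 * v - N ≤ t by omega)
        fun x _ _ => F_nonneg h x
      push_cast at h4 h6
      rw [← hm] at h4
      have c3 : (0 : ℝ) ≤ 2 * v - N := by exact_mod_cast h3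
      have h7 : E - (2 * ((N : ℝ) - v) + 1 - (N + 1 - t)) * c ≤ (2 * ((N : ℝ) - v) + 1) * (m - c) := by
        rw [hEdef]; linarith
      have h8 : (2 * ((N : ℝ) - v) + 1 - (N + 1 - t)) * c ≤ ((N : ℝ) - t) * c :=
        mul_le_mul_of_nonneg_right (by linarith) hc
      have h5' : 0 ≤ m - c := by linarith
      have h9 : (2 * ((N : ℝ) - v) + 1) * (m - c) ≤ ((N : ℝ) + 1) * (m - c) :=
        mul_le_mul_of_nonneg_right (by linarith) h5'
      have h10 : 2 * (2 * ((N : ℝ) - v) + 1 - (N + 1 - t)) * c ≤ 2 * (((N : ℝ) - t)) * c :=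
        mul_le_mul_of_nonneg_right (by linarith) hc
      linarith
    · -- the whole path
      have h4 := tb h (x := v) (ρ := N - v) (lo := 0) (hi := N) (by omega) hv (by omega)
        (by omega) (by omega)
      have h5 := sm_add (zx N g) ht (show t ≤ (N : ℤ) + 1 by omega)
      have h6 := le_sm (F := zx N g) (c := 0) ht fun x _ _ => F_nonneg h x
      push_cast at h4 h6
      rw [← hm] at h4
      have c3 : (2 : ℝ) * v ≤ N - 1 := by
        have : 2 * v ≤ (N : ℤ) - 1 := by omega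
        exact_mod_cast this
      have h7 : E - (t : ℝ) * c ≤ ((N : ℝ) + 1) * (m - c) := by
        rw [hEdef]; linarith
      have h8 : (3 * (t : ℝ) - N) * c ≤ ((N : ℝ) - t) * c :=
        mul_le_mul_of_nonneg_right (by linarith) hc
      have h9 : 0 ≤ (t : ℝ) * c := mul_nonneg c0 hc
      linarith

theorem exists_att : ∃ x : ℤ, 0 ≤ x ∧ x ≤ N ∧ zx N g x = zx N M x := by
  obtain ⟨x, hx, hmax⟩ := exists_max_image (range (N + 1)) g ⟨0, by rw [mem_range]; omega⟩
  rw [mem_range] at hx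
  refine ⟨x, by omega, by omega, le_antisymm (F_le_M h _) ?_⟩
  rw [zx_nat (by omega), zx_nat (by omega)]
  obtain ⟨r, hr⟩ := h.attained x (by omega)
  have h1 : ∑ i ∈ I N x r, g i ≤ ∑ _i ∈ I N x r, g x := sum_le_sum fun i hi => by
    simp only [I, mem_Icc] at hi
    exact hmax i (by rw [mem_range]; omega)
  rw [sum_const, nsmul_eq_mul, ← hr, mul_comm] at h1
  exact le_of_mul_le_mul_left h1 (by exact_mod_cast card_I_pos r (by omega))

omit h in
theorem no_detZ (hno : ∀ p q, ¬ DetN N g M p q) (p q : ℤ) (hp : -1 < p) (hq : q < N + 1) :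
    ¬ Det (zx N g) (zx N M) p q := fun hd => hno _ _ (detN_of_det hp hq hd)

/-- the minimum `0` is attained before the last attached point -/
theorem sharp_aux (hno : ∀ p q, ¬ DetN N g M p q) {x₀ t' : ℤ} (hx0 : 0 ≤ x₀)
    (hx1 : x₀ ≤ t') (hxz : zx N g x₀ = 0) (ht' : t' ≤ N) (hatt' : zx N g t' = zx N M t')
    (hlast : ∀ x, t' < x → x ≤ N → zx N g x < zx N M x) :
    vr (zx N g) 0 N ≤ ((N : ℝ) + 1) * (vr (zx N g) 0 N - vr (zx N M) 0 N) := by
  set F := zx N g with hF
  set Mx := zx N M with hMx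
  have hnd := no_detZ hno
  have hle : ∀ x, F x ≤ Mx x := F_le_M h
  have hFn : ∀ x, 0 ≤ F x := F_nonneg h
  have hMn : ∀ x, 0 ≤ Mx x := Mx_nonneg h
  have hN : (0 : ℝ) ≤ N := Nat.cast_nonneg N
  obtain ⟨t, ht1, ht2, ht3, ht4⟩ := first_att (F := F) (M := Mx) (show (0 : ℤ) ≤ t' by omega) hatt'
    fun x _ _ => hle x
  -- the two ends
  have hm1 : ∀ x y, 0 ≤ x → x ≤ y → y ≤ t → Mx x ≤ Mx y := by
    intro x y hx hxy hy
    by_contra hcon
    push Not at hcon
    have h4 : x ≠ y := by rintro rfl; exact lt_irrefl _ hcon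
    have h0 : Mx (-1) = 0 := zx_neg (by omega)
    obtain ⟨p, q, h7, h8, h9⟩ := exists_det (F := F) (M := Mx) (show (-1 : ℤ) < x by omega)
      (show x < y by omega) (fun z h7 h8 => ht4 z (by omega) (by omega))
      (by rw [h0]; exact lt_of_le_of_lt (hMn y) hcon) hcon
    exact hnd p q h7 (by omega) h9
  have hm2 : ∀ x y, t' ≤ x → x ≤ y → y ≤ N → Mx y ≤ Mx x := by
    intro x y hx hxy hy
    by_contra hcon
    push Not at hcon
    have h4 : x ≠ y := by rintro rfl; exact lt_irrefl _ hcon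
    have h0 : Mx (N + 1) = 0 := zx_gt (by omega)
    obtain ⟨p, q, h7, h8, h9⟩ := exists_det (F := F) (M := Mx) (show x < y by omega)
      (show y < (N : ℤ) + 1 by omega) (fun z h7 h8 => hlast z (by omega) (by omega)) hcon
      (by rw [h0]; exact lt_of_le_of_lt (hMn x) hcon)
    exact hnd p q (by omega) h8 h9
  have e1 := vr_mono ht1 hm1
  have e2 := vr_anti ht' hm2
  have s1 := vr_add F ht1 (show t ≤ (N : ℤ) by omega)
  have s2 := vr_add Mx ht1 (show t ≤ (N : ℤ) by omega)
  have s3 := vr_add F ht2 ht'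
  have s4 := vr_add Mx ht2 ht'
  have g2 := down_le_vr F ht'
  have w1 := hle 0
  have w2 := hle N
  -- a point between attached points
  have key : ∀ x, t ≤ x → x ≤ t' → ∃ v, t ≤ v ∧ v ≤ t' ∧
      2 * (Mx v - F x) ≤ vr F t t' - vr Mx t t' := by
    intro x hx hx'
    obtain ⟨a, a1, a2, a3, a4⟩ := last_att (F := F) (M := Mx) hx ht3 fun x _ _ => hle x
    obtain ⟨b, b1, b2, b3, b4⟩ := first_att (F := F) (M := Mx) hx' hatt' fun x _ _ => hle x
    obtain ⟨v, v1, v2, -, v4⟩ := block (F := F) (M := Mx) (show a ≤ b by omega)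
      (fun y h1 h2 => by
        rcases le_total y x with h3 | h3
        · exact a4 y h1 h3
        · exact b4 y h3 h2) fun p q hp hq => hnd p q (by omega) (by omega)
    refine ⟨v, by omega, by omega, ?_⟩
    have k1 := no_det' (F := F) (M := Mx) a1 (fun x _ _ => hle x) ht3 a3
      fun p q hp hq => hnd p q (by omega) (by omega)
    have k2 := no_det' (F := F) (M := Mx) b2 (fun x _ _ => hle x) b3 hatt'
      fun p q hp hq => hnd p q (by omega) (by omega)
    have k3 := down_le_vr F a2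
    have k4 := up_le_vr F b1
    rw [vr_add F a1 (show a ≤ t' by omega), vr_add F (show a ≤ b by omega) b2,
      vr_add Mx a1 (show a ≤ t' by omega), vr_add Mx (show a ≤ b by omega) b2, v4,
      vr_add F a2 b1]
    linarith
  rcases le_or_gt t x₀ with hc | hc
  · -- the minimum is between attached points
    obtain ⟨v, v1, v2, v3⟩ := key x₀ hc hx1
    have g1 := up_le_vr F ht1
    have k1 := vr_le_sm (F := F) (c := 0) (show (0 : ℤ) ≤ N by omega) fun x _ _ => hFn x
    have k2 := tb h (x := v) (ρ := N) (lo := 0) (hi := N) (by omega) (by omega) (by omega)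
      (by omega) (by omega)
    push_cast at k1 k2
    rw [← hF, ← hMx] at k2
    have k3 := hFn 0
    have k4 := hFn N
    have k5 : 2 * (Mx v - F x₀) ≤ vr F 0 N - vr Mx 0 N := by linarith
    have k6 : ((N : ℝ) + 1) * (2 * (Mx v - F x₀)) ≤ ((N : ℝ) + 1) * (vr F 0 N - vr Mx 0 N) :=
      mul_le_mul_of_nonneg_left k5 (by linarith)
    rw [hxz] at k6
    linarith
  · -- the minimum is before the first attached point
    have g1 : F 0 + F t ≤ vr F 0 t := by
      have k1 := down_le_vr F hx0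
      have k2 := up_le_vr F hc.le
      rw [vr_add F hx0 hc.le]
      linarith
    obtain ⟨x₁, x2, x3, hmin⟩ := exists_argmin F (show t ≤ (N : ℤ) by omega)
    set c := F x₁ with hcdef
    have hc0 : 0 ≤ c := hFn x₁
    have c0 : (0 : ℝ) ≤ t := by exact_mod_cast ht1
    have c1 : (t : ℝ) ≤ N := by exact_mod_cast (show t ≤ (N : ℤ) by omega)
    have k1 := vr_le_sm (F := F) (c := c) (show t ≤ (N : ℤ) by omega) hmin
    have k2 := tb h (x := 0) (ρ := N) (lo := 0) (hi := N) le_rfl (by omega) (by omega)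
      (by omega) (by omega)
    have k3 := sm_add F ht1 (show t ≤ (N : ℤ) + 1 by omega)
    have k4 := le_sm (F := F) (c := 0) ht1 fun x _ _ => hFn x
    push_cast at k1 k2 k4
    rw [← hF, ← hMx] at k2
    have hE : 0 ≤ sm F t (N + 1) - ((N : ℝ) + 1 - t) * c := by
      have := le_sm (F := F) (c := c) (show t ≤ (N : ℤ) + 1 by omega)
        fun x hx hx' => hmin x hx (by omega)
      push_cast at this
      linarith
    have hFN := hmin N (by omega) le_rfl
    have hF0 := hFn 0
    have hgoal : sm F t (N + 1) - ((N : ℝ) + 1 - t) * c - ((N : ℝ) - t) * c - (F N - c) ≤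
        ((N : ℝ) + 1) * (vr F t N - vr Mx t N) := by
      rcases le_or_gt t' x₁ with hd | hd
      · have g3 : (F t' - c) + (F N - c) ≤ vr F t' N := by
          have k5 := down_le_vr F hd
          have k6 := up_le_vr F x3
          rw [vr_add F hd x3]
          linarith
        have g4 := no_det' (F := F) (M := Mx) ht2 (fun x _ _ => hle x) ht3 hatt'
          fun p q hp hq => hnd p q (by omega) (by omega)
        have g5 : Mx N - c ≤ vr F t N - vr Mx t N := by linarith
        have g6 := tb h (x := N) (ρ := N - t) (lo := t) (hi := N) (by omega) le_rfl (by omega)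
          (by omega) (by omega)
        push_cast at g6
        rw [← hF, ← hMx] at g6
        have g7 : sm F t (N + 1) - ((N : ℝ) + 1 - t) * c ≤ ((N : ℝ) + 1 - t) * (Mx N - c) := by
          linarith
        have g8 : ((N : ℝ) + 1 - t) * (Mx N - c) ≤ ((N : ℝ) + 1) * (Mx N - c) :=
          mul_le_mul_of_nonneg_right (by linarith) (by linarith)
        have g9 : ((N : ℝ) + 1) * (Mx N - c) ≤ ((N : ℝ) + 1) * (vr F t N - vr Mx t N) :=
          mul_le_mul_of_nonneg_left g5 (by linarith)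
        have g10 : 0 ≤ ((N : ℝ) - t) * c := mul_nonneg (by linarith) hc0
        linarith
      · obtain ⟨v, v1, v2, v3⟩ := key x₁ x2 hd.le
        have n1 := num h ht1 v1 (show v ≤ (N : ℤ) by omega) hc0 (hmin v v1 (by omega)) hE
        rw [← hMx] at n1
        have n2 : 2 * (Mx v - c) ≤ vr F t N - vr Mx t N := by linarith
        have n3 : ((N : ℝ) + 1) * (2 * (Mx v - c)) ≤ ((N : ℝ) + 1) * (vr F t N - vr Mx t N) :=
          mul_le_mul_of_nonneg_left n2 (by linarith)
        linarith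
    have hV1 : (N : ℝ) * (F 0 + F t) ≤ (N : ℝ) * vr F 0 t := mul_le_mul_of_nonneg_left g1 hN
    have hNF0 : 0 ≤ (N : ℝ) * F 0 := mul_nonneg hN hF0
    have hfin : ((N : ℝ) + 1) * (vr F 0 t - vr Mx 0 t) =
        ((N : ℝ) + 1) * vr F 0 t - ((N : ℝ) + 1) * Mx t + ((N : ℝ) + 1) * Mx 0 := by
      rw [e1]; ring
    have hfin2 : ((N : ℝ) + 1) * (vr F 0 N - vr Mx 0 N) =
        ((N : ℝ) + 1) * (vr F 0 t - vr Mx 0 t) + ((N : ℝ) + 1) * (vr F t N - vr Mx t N) := by
      rw [s1, s2]; ring
    rw [hfin2, hfin, s1]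
    rw [← ht3]
    linarith

end

end Pool.Agent.Helper53_DP
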