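import Mathlib

/-!
# Sums and variation over intervals of integers; detached plateaus
-/

set_option autoImplicit false

open Finset

namespace Pool.Agent.Helper53_DP

/-- the sum of `F` over the integers of `[a, b)` -/
noncomputable def sm (F : ℤ → ℝ) (a b : ℤ) : ℝ := ∑ i ∈ range (b - a).toNat, F (a + i)

/-- the variation of `F` on `[a, b]` -/
noncomputable def vr (F : ℤ → ℝ) (a b : ℤ) : ℝ := sm (fun x => |F (x + 1) - F x|) a b

theorem sm_self (F : ℤ → ℝ) (a : ℤ) : sm F a a = 0 := by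
  simp [sm]

theorem sm_succ (F : ℤ → ℝ) {a b : ℤ} (h : a ≤ b) : sm F a (b + 1) = sm F a b + F b := by
  unfold sm
  have h1 : (b + 1 - a).toNat = (b - a).toNat + 1 := by omega
  rw [h1, sum_range_succ]
  have h2 : a + ((b - a).toNat : ℤ) = b := by omega
  rw [h2]

/-- induction for integers `b ≥ a` -/
theorem up {a : ℤ} {P : ℤ → Prop} (h0 : P a) (h1 : ∀ b, a ≤ b → P b → P (b + 1)) {b : ℤ}
    (h : a ≤ b) : P b := Int.le_induction h0 h1 b h

theorem sm_add (F : ℤ → ℝ) {a b c : ℤ} (h1 : a ≤ b) (h2 : b ≤ c) :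
    sm F a c = sm F a b + sm F b c := by
  refine up (a := b) (P := fun c => sm F a c = sm F a b + sm F b c) ?_ ?_ h2
  · show sm F a b = sm F a b + sm F b b
    rw [sm_self, add_zero]
  · intro c hc ih
    show sm F a (c + 1) = sm F a b + sm F b (c + 1)
    rw [sm_succ F (h1.trans hc), sm_succ F hc, ih]
    ring

theorem sm_congr {F G : ℤ → ℝ} {a b : ℤ} (h : ∀ x, a ≤ x → x < b → F x = G x) :
    sm F a b = sm G a b := by
  unfold sm
  refine sum_congr rfl fun i hi => ?_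
  rw [mem_range] at hi
  exact h _ (by omega) (by omega)

theorem sm_le {F : ℤ → ℝ} {a b : ℤ} {c : ℝ} (hab : a ≤ b) (h : ∀ x, a ≤ x → x < b → F x ≤ c) :
    sm F a b ≤ ((b : ℝ) - a) * c := by
  revert h
  refine up (a := a) (P := fun b => (∀ x, a ≤ x → x < b → F x ≤ c) → sm F a b ≤ ((b : ℝ) - a) * c)
    ?_ ?_ hab
  · intro _
    rw [sm_self]
    simp
  · intro b hb ih h
    rw [sm_succ F hb]
    have h1 := ih fun x hx hxb => h x hx (by omega)
    have h2 := h b hb (by omega)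
    push_cast
    linarith

theorem le_sm {F : ℤ → ℝ} {a b : ℤ} {c : ℝ} (hab : a ≤ b) (h : ∀ x, a ≤ x → x < b → c ≤ F x) :
    ((b : ℝ) - a) * c ≤ sm F a b := by
  revert h
  refine up (a := a) (P := fun b => (∀ x, a ≤ x → x < b → c ≤ F x) → ((b : ℝ) - a) * c ≤ sm F a b)
    ?_ ?_ hab
  · intro _
    rw [sm_self]
    simp
  · intro b hb ih h
    rw [sm_succ F hb]
    have h1 := ih fun x hx hxb => h x hx (by omega)
    have h2 := h b hb (by omega)
    push_cast
    linarith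

theorem sm_lt {F : ℤ → ℝ} {a b : ℤ} {c : ℝ} (hab : a < b) (h : ∀ x, a ≤ x → x < b → F x < c) :
    sm F a b < ((b : ℝ) - a) * c := by
  have h0 : b = b - 1 + 1 := by ring
  rw [h0, sm_succ F (by omega)]
  have h1 := sm_le (c := c) (show a ≤ b - 1 by omega) fun x hx hxb => (h x hx (by omega)).le
  have h2 := h (b - 1) (by omega) (by omega)
  push_cast at h1 ⊢
  linarith

/-- an average which is at least `c` is at least `c` somewhere -/
theorem exists_ge {F : ℤ → ℝ} {a b : ℤ} {c : ℝ} (hab : a < b) (h : ((b : ℝ) - a) * c ≤ sm F a b) :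
    ∃ x, a ≤ x ∧ x < b ∧ c ≤ F x := by
  by_contra hcon
  push Not at hcon
  have := sm_lt hab hcon
  linarith

theorem vr_self (F : ℤ → ℝ) (a : ℤ) : vr F a a = 0 := sm_self _ _

theorem vr_succ (F : ℤ → ℝ) {a b : ℤ} (h : a ≤ b) :
    vr F a (b + 1) = vr F a b + |F (b + 1) - F b| := sm_succ _ h

theorem vr_add (F : ℤ → ℝ) {a b c : ℤ} (h1 : a ≤ b) (h2 : b ≤ c) :
    vr F a c = vr F a b + vr F b c := sm_add _ h1 h2

theorem vr_congr {F G : ℤ → ℝ} {a b : ℤ} (h : ∀ x, a ≤ x → x ≤ b → F x = G x) :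
    vr F a b = vr G a b := by
  refine sm_congr fun x hx hxb => ?_
  show |F (x + 1) - F x| = |G (x + 1) - G x|
  rw [h x hx hxb.le, h (x + 1) (by omega) (by omega)]

theorem abs_le_vr (F : ℤ → ℝ) {a b : ℤ} (h : a ≤ b) : |F b - F a| ≤ vr F a b := by
  refine up (a := a) (P := fun b => |F b - F a| ≤ vr F a b) ?_ ?_ h
  · show |F a - F a| ≤ vr F a a
    rw [vr_self, sub_self, abs_zero]
  · intro b hb ih
    show |F (b + 1) - F a| ≤ vr F a (b + 1)
    rw [vr_succ F hb]
    have h1 := abs_sub_le (F (b + 1)) (F b) (F a)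
    linarith

theorem vr_nonneg (F : ℤ → ℝ) {a b : ℤ} (h : a ≤ b) : 0 ≤ vr F a b :=
  (abs_nonneg _).trans (abs_le_vr F h)

theorem up_le_vr (F : ℤ → ℝ) {a b : ℤ} (h : a ≤ b) : F b - F a ≤ vr F a b :=
  (le_abs_self _).trans (abs_le_vr F h)

theorem down_le_vr (F : ℤ → ℝ) {a b : ℤ} (h : a ≤ b) : F a - F b ≤ vr F a b := by
  have h1 := abs_le_vr F h
  have h2 := neg_abs_le (F b - F a)
  linarith

theorem vr_mono {F : ℤ → ℝ} {a b : ℤ} (hab : a ≤ b)
    (h : ∀ x y, a ≤ x → x ≤ y → y ≤ b → F x ≤ F y) : vr F a b = F b - F a := by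
  revert h
  refine up (a := a)
    (P := fun b => (∀ x y, a ≤ x → x ≤ y → y ≤ b → F x ≤ F y) → vr F a b = F b - F a) ?_ ?_ hab
  · intro _
    rw [vr_self, sub_self]
  · intro b hb ih h
    rw [vr_succ F hb, ih fun x y h1 h2 h3 => h x y h1 h2 (by omega),
      abs_of_nonneg (sub_nonneg.mpr (h b (b + 1) hb (by omega) le_rfl))]
    ring

theorem vr_anti {F : ℤ → ℝ} {a b : ℤ} (hab : a ≤ b)
    (h : ∀ x y, a ≤ x → x ≤ y → y ≤ b → F y ≤ F x) : vr F a b = F a - F b := by
  revert h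
  refine up (a := a)
    (P := fun b => (∀ x y, a ≤ x → x ≤ y → y ≤ b → F y ≤ F x) → vr F a b = F a - F b) ?_ ?_ hab
  · intro _
    rw [vr_self, sub_self]
  · intro b hb ih h
    rw [vr_succ F hb, ih fun x y h1 h2 h3 => h x y h1 h2 (by omega),
      abs_of_nonpos (sub_nonpos.mpr (h b (b + 1) hb (by omega) le_rfl))]
    ring

/-- `[p, q]` is a plateau of `M` on which `F < M` and at which `M` has a strict local maximum -/
def Det (F M : ℤ → ℝ) (p q : ℤ) : Prop :=
  p ≤ q ∧ (∀ x, p ≤ x → x ≤ q → M x = M q ∧ F x < M q) ∧ M (p - 1) < M q ∧ M (q + 1) < M q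

/-- a value which exceeds the values at two places around it produces a detached plateau -/
theorem exists_det {F M : ℤ → ℝ} {a x b : ℤ} (hax : a < x) (hxb : x < b)
    (hF : ∀ y, a < y → y < b → F y < M y) (h1 : M a < M x) (h2 : M b < M x) :
    ∃ p q, a < p ∧ q < b ∧ Det F M p q := by
  classical
  -- the maximum of `M` on `[a, b]`
  obtain ⟨m, hm, hmax⟩ := exists_max_image (Icc a b) M ⟨x, by rw [mem_Icc]; omega⟩
  rw [mem_Icc] at hm
  have hmx : M x ≤ M m := hmax x (by rw [mem_Icc]; omega)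
  have hma : m ≠ a := by rintro rfl; linarith
  have hmb : m ≠ b := by rintro rfl; linarith
  -- the first maximum point
  obtain ⟨p, hp, hpmin⟩ := exists_min_image ((Icc a b).filter fun y => M y = M m) (fun y => y)
    ⟨m, by rw [mem_filter, mem_Icc]; exact ⟨by omega, rfl⟩⟩
  rw [mem_filter, mem_Icc] at hp
  have hpa : p ≠ a := by
    rintro rfl
    linarith [hp.2]
  -- the end of the plateau
  obtain ⟨q, hq, hqmax⟩ := exists_max_image
    ((Icc p b).filter fun y => ∀ z, p ≤ z → z ≤ y → M z = M m) (fun y => y)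
    ⟨p, by
      rw [mem_filter, mem_Icc]
      refine ⟨by omega, fun z h3 h4 => ?_⟩
      have : z = p := by omega
      rw [this]; exact hp.2⟩
  rw [mem_filter, mem_Icc] at hq
  have hqv : M q = M m := hq.2 q hq.1.1 le_rfl
  have hqb : q < b := by
    rcases lt_or_eq_of_le hq.1.2 with h | h
    · exact h
    · rw [h] at hqv
      linarith
  refine ⟨p, q, by omega, hqb, hq.1.1, ?_, ?_, ?_⟩
  · intro y h3 h4
    have h5 := hq.2 y h3 h4
    refine ⟨by rw [h5, hqv], ?_⟩
    rw [hqv, ← h5]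
    exact hF y (by omega) (by omega)
  · rw [hqv]
    refine lt_of_le_of_ne (hmax (p - 1) (by rw [mem_Icc]; omega)) fun h3 => ?_
    have := hpmin (p - 1) (by rw [mem_filter, mem_Icc]; exact ⟨by omega, h3⟩)
    omega
  · rw [hqv]
    refine lt_of_le_of_ne (hmax (q + 1) (by rw [mem_Icc]; omega)) fun h3 => ?_
    have := hqmax (q + 1) (by
      rw [mem_filter, mem_Icc]
      refine ⟨by omega, fun z h4 h5 => ?_⟩
      rcases lt_or_ge q z with h6 | h6
      · have : z = q + 1 := by omega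
        rw [this]; exact h3
      · exact hq.2 z h4 h6)
    omega

/-- minimum of `M` on `[a, b]` -/
theorem exists_argmin (M : ℤ → ℝ) {a b : ℤ} (h : a ≤ b) :
    ∃ y, a ≤ y ∧ y ≤ b ∧ ∀ x, a ≤ x → x ≤ b → M y ≤ M x := by
  obtain ⟨m, hm, hmin⟩ := exists_min_image (Icc a b) M ⟨a, by rw [mem_Icc]; omega⟩
  rw [mem_Icc] at hm
  exact ⟨m, hm.1, hm.2, fun x h1 h2 => hmin x (by rw [mem_Icc]; omega)⟩

/-- `M` is monotone up to and down from its minimum if there is no detached plateau -/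
theorem anti_mono {F M : ℤ → ℝ} {a b y : ℤ} (hy1 : a ≤ y) (hy2 : y ≤ b)
    (hmin : ∀ x, a ≤ x → x ≤ b → M y ≤ M x)
    (hF : ∀ x, a < x → x < b → F x < M x)
    (hD : ∀ p q, a < p → q < b → ¬ Det F M p q) :
    (∀ x x', a ≤ x → x ≤ x' → x' ≤ y → M x' ≤ M x) ∧
      (∀ x x', y ≤ x → x ≤ x' → x' ≤ b → M x ≤ M x') := by
  constructor
  · intro x x' h1 h2 h3
    by_contra hcon
    push Not at hcon
    have h4 : x ≠ x' := by rintro rfl; exact lt_irrefl _ hcon
    have h5 : M y < M x' := lt_of_le_of_lt (hmin x h1 (by omega)) hcon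
    have h6 : x' ≠ y := by rintro rfl; exact lt_irrefl _ h5
    obtain ⟨p, q, h7, h8, h9⟩ := exists_det (F := F) (show x < x' by omega)
      (show x' < y by omega) (fun z h7 h8 => hF z (by omega) (by omega)) hcon h5
    exact hD p q (by omega) (by omega) h9
  · intro x x' h1 h2 h3
    by_contra hcon
    push Not at hcon
    have h4 : x ≠ x' := by rintro rfl; exact lt_irrefl _ hcon
    have h5 : M y < M x := lt_of_le_of_lt (hmin x' (by omega) h3) hcon
    have h6 : y ≠ x := by rintro rfl; exact lt_irrefl _ h5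
    obtain ⟨p, q, h7, h8, h9⟩ := exists_det (F := F) (show y < x by omega)
      (show x < x' by omega) (fun z h7 h8 => hF z (by omega) (by omega)) h5 hcon
    exact hD p q (by omega) (by omega) h9

/-- last place at which `F = M` before `w` -/
theorem last_att {F M : ℤ → ℝ} {u w : ℤ} (h : u ≤ w) (hu : F u = M u)
    (hle : ∀ x, u ≤ x → x ≤ w → F x ≤ M x) :
    ∃ s, u ≤ s ∧ s ≤ w ∧ F s = M s ∧ ∀ x, s < x → x ≤ w → F x < M x := by
  classical
  obtain ⟨s, hs, hmax⟩ := exists_max_image ((Icc u w).filter fun y => F y = M y) (fun y => y)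
    ⟨u, by rw [mem_filter, mem_Icc]; exact ⟨by omega, hu⟩⟩
  rw [mem_filter, mem_Icc] at hs
  refine ⟨s, hs.1.1, hs.1.2, hs.2, fun x h1 h2 => ?_⟩
  refine lt_of_le_of_ne (hle x (by omega) h2) fun h3 => ?_
  have := hmax x (by rw [mem_filter, mem_Icc]; exact ⟨by omega, h3⟩)
  omega

/-- first place at which `F = M` after `w` -/
theorem first_att {F M : ℤ → ℝ} {w v : ℤ} (h : w ≤ v) (hv : F v = M v)
    (hle : ∀ x, w ≤ x → x ≤ v → F x ≤ M x) :
    ∃ t, w ≤ t ∧ t ≤ v ∧ F t = M t ∧ ∀ x, w ≤ x → x < t → F x < M x := by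
  classical
  obtain ⟨t, ht, hmin⟩ := exists_min_image ((Icc w v).filter fun y => F y = M y) (fun y => y)
    ⟨v, by rw [mem_filter, mem_Icc]; exact ⟨by omega, hv⟩⟩
  rw [mem_filter, mem_Icc] at ht
  refine ⟨t, ht.1.1, ht.1.2, ht.2, fun x h1 h2 => ?_⟩
  refine lt_of_le_of_ne (hle x h1 (by omega)) fun h3 => ?_
  have := hmin x (by rw [mem_filter, mem_Icc]; exact ⟨by omega, h3⟩)
  omega

end Pool.Agent.Helper53_DP
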