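import Pool.Agent.Helper53_DP.Basic

/-!
# One detached plateau between two attached ends
-/

set_option autoImplicit false

open Finset

namespace Pool.Agent.Helper53_DP

/-- a block without detached plateau -/
theorem block {F M : ℤ → ℝ} {s t : ℤ} (hst : s ≤ t) (hF : ∀ x, s < x → x < t → F x < M x)
    (hD : ∀ p q, s < p → q < t → ¬ Det F M p q) :
    ∃ y, s ≤ y ∧ y ≤ t ∧ (∀ x, s ≤ x → x ≤ t → M y ≤ M x) ∧ vr M s t = M s + M t - 2 * M y := by
  obtain ⟨y, h1, h2, hmin⟩ := exists_argmin M hst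
  obtain ⟨h3, h4⟩ := anti_mono h1 h2 hmin hF hD
  refine ⟨y, h1, h2, hmin, ?_⟩
  rw [vr_add M h1 h2, vr_anti h1 h3, vr_mono h2 h4]
  ring

/-- no detached plateau: the variation does not increase -/
theorem no_det (F M : ℤ → ℝ) : ∀ k : ℕ, ∀ s t : ℤ, (t - s).toNat ≤ k → s ≤ t →
    (∀ x, s ≤ x → x ≤ t → F x ≤ M x) → F s = M s → F t = M t →
    (∀ p q, s < p → q < t → ¬ Det F M p q) → vr M s t ≤ vr F s t := by
  intro k
  induction k with
  | zero =>
    intro s t hk hst _ _ _ _
    have : t = s := by omega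
    subst this
    rw [vr_self, vr_self]
  | succ k ih =>
    intro s t hk hst hle hs ht hD
    rcases eq_or_lt_of_le hst with h | h
    · subst h
      rw [vr_self, vr_self]
    obtain ⟨t', h1, h2, h3, h4⟩ := first_att (F := F) (M := M) (show s + 1 ≤ t by omega) ht
      fun x hx hx' => hle x (by omega) hx'
    obtain ⟨y, hy1, hy2, -, hy4⟩ := block (F := F) (M := M) (show s ≤ t' by omega)
      (fun x hx hx' => h4 x (by omega) hx') fun p q hp hq => hD p q hp (by omega)
    have h5 := ih t' t (by omega) h2 (fun x hx hx' => hle x (by omega) hx') h3 ht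
      fun p q hp hq => hD p q (by omega) hq
    rw [vr_add M (show s ≤ t' by omega) h2, vr_add F (show s ≤ t' by omega) h2, hy4,
      vr_add F hy1 hy2]
    have h6 := down_le_vr F hy1
    have h7 := up_le_vr F hy2
    have h8 := hle y hy1 (by omega)
    linarith

theorem no_det' {F M : ℤ → ℝ} {s t : ℤ} (hst : s ≤ t)
    (hle : ∀ x, s ≤ x → x ≤ t → F x ≤ M x) (hs : F s = M s) (ht : F t = M t)
    (hD : ∀ p q, s < p → q < t → ¬ Det F M p q) : vr M s t ≤ vr F s t :=
  no_det F M _ s t le_rfl hst hle hs ht hD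

/-- gain of the part left of the central block -/
theorem sideL {F M : ℤ → ℝ} {u s w : ℤ} {θ h : ℝ} (huw : u ≤ w) (hws : w ≤ s)
    (hle : ∀ x, u ≤ x → x ≤ s → F x ≤ M x) (hu : F u = M u) (hs : F s = M s)
    (hD : ∀ p q, u < p → q < s → ¬ Det F M p q) (hθ : θ ≤ h)
    (H : ∀ x, u ≤ x → x ≤ s → M x < θ → ∃ s', x < s' ∧ s' < w ∧ h ≤ F s') :
    vr M u s + 2 * (θ - F w) ≤ vr F u s := by
  obtain ⟨a, ha1, ha2, ha3, ha4⟩ := last_att huw hu fun x hx hx' => hle x hx (by omega)
  obtain ⟨b, hb1, hb2, hb3, hb4⟩ := first_att hws hs fun x hx hx' => hle x (by omega) hx'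
  have hab : a ≤ b := by omega
  have h1 := no_det' ha1 (fun x hx hx' => hle x hx (by omega)) hu ha3
    fun p q hp hq => hD p q hp (by omega)
  have h2 := no_det' hb2 (fun x hx hx' => hle x (by omega) hx') hb3 hs
    fun p q hp hq => hD p q (by omega) hq
  obtain ⟨y, hy1, hy2, -, hy4⟩ := block (F := F) (M := M) hab (fun x hx hx' => by
    rcases le_total x w with h3 | h3
    · exact ha4 x hx h3
    · exact hb4 x h3 hx') fun p q hp hq => hD p q (by omega) (by omega)
  rw [vr_add M (show u ≤ a from ha1) (show a ≤ s by omega), vr_add M hab hb2,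
    vr_add F (show u ≤ a from ha1) (show a ≤ s by omega), vr_add F hab hb2, hy4]
  rcases lt_or_ge (M y) θ with h3 | h3
  · obtain ⟨s', h4, h5, h6⟩ := H y (by omega) (by omega) h3
    have h7 := down_le_vr F hy1
    have h8 := up_le_vr F h4.le
    have h9 := down_le_vr F h5.le
    have h10 := up_le_vr F hb1
    have h11 := hle y (by omega) (by omega)
    rw [vr_add F hy1 hy2, vr_add F h4.le (show s' ≤ b by omega), vr_add F h5.le hb1]
    linarith
  · have h7 := down_le_vr F ha2
    have h10 := up_le_vr F hb1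
    rw [vr_add F ha2 hb1]
    linarith

/-- gain of the part right of the central block -/
theorem sideR {F M : ℤ → ℝ} {t v w : ℤ} {θ h : ℝ} (htw : t ≤ w) (hwv : w ≤ v)
    (hle : ∀ x, t ≤ x → x ≤ v → F x ≤ M x) (ht : F t = M t) (hv : F v = M v)
    (hD : ∀ p q, t < p → q < v → ¬ Det F M p q) (hθ : θ ≤ h)
    (H : ∀ x, t ≤ x → x ≤ v → M x < θ → ∃ s', w < s' ∧ s' < x ∧ h ≤ F s') :
    vr M t v + 2 * (θ - F w) ≤ vr F t v := by
  obtain ⟨a, ha1, ha2, ha3, ha4⟩ := last_att htw ht fun x hx hx' => hle x hx (by omega)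
  obtain ⟨b, hb1, hb2, hb3, hb4⟩ := first_att hwv hv fun x hx hx' => hle x (by omega) hx'
  have hab : a ≤ b := by omega
  have h1 := no_det' ha1 (fun x hx hx' => hle x hx (by omega)) ht ha3
    fun p q hp hq => hD p q hp (by omega)
  have h2 := no_det' hb2 (fun x hx hx' => hle x (by omega) hx') hb3 hv
    fun p q hp hq => hD p q (by omega) hq
  obtain ⟨y, hy1, hy2, -, hy4⟩ := block (F := F) (M := M) hab (fun x hx hx' => by
    rcases le_total x w with h3 | h3
    · exact ha4 x hx h3
    · exact hb4 x h3 hx') fun p q hp hq => hD p q (by omega) (by omega)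
  rw [vr_add M (show t ≤ a from ha1) (show a ≤ v by omega), vr_add M hab hb2,
    vr_add F (show t ≤ a from ha1) (show a ≤ v by omega), vr_add F hab hb2, hy4]
  rcases lt_or_ge (M y) θ with h3 | h3
  · obtain ⟨s', h4, h5, h6⟩ := H y (by omega) (by omega) h3
    have h7 := down_le_vr F ha2
    have h8 := up_le_vr F h4.le
    have h9 := down_le_vr F h5.le
    have h10 := up_le_vr F hy2
    have h11 := hle y (by omega) (by omega)
    rw [vr_add F hy1 hy2, vr_add F ha2 (show w ≤ y by omega), vr_add F h4.le h5.le]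
    linarith
  · have h7 := down_le_vr F ha2
    have h10 := up_le_vr F hb1
    rw [vr_add F ha2 hb1]
    linarith

/-- an optimal ball of a detached plateau -/
structure Ball (F M : ℤ → ℝ) (z r : ℤ) : Prop where
  one : 1 ≤ r
  avg : (2 * (r : ℝ) + 1) * M z ≤ sm F (z - r) (z + r + 1)
  left : 2 * M z ≤ F (z - r) + F (z - r + 1)
  right : 2 * M z ≤ F (z + r - 1) + F (z + r)
  sub : ∀ x ρ : ℤ, 0 ≤ ρ → z - r ≤ x - ρ → x + ρ ≤ z + r →
    sm F (x - ρ) (x + ρ + 1) ≤ (2 * (ρ : ℝ) + 1) * M x

variable {F M : ℤ → ℝ} {z r : ℤ}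

theorem Ball.leftBall (hB : Ball F M z r) {y : ℤ} (h1 : z - r ≤ y) (h2 : y ≤ z) :
    sm F (z - r) (2 * y - (z - r) + 1) ≤ (2 * ((y : ℝ) - (z - r)) + 1) * M y := by
  have h := hB.sub y (y - (z - r)) (by omega) (by omega) (by omega)
  have e1 : y - (y - (z - r)) = z - r := by ring
  have e2 : y + (y - (z - r)) + 1 = 2 * y - (z - r) + 1 := by ring
  rw [e1, e2] at h
  push_cast at h
  exact h

theorem Ball.rightBall (hB : Ball F M z r) {y : ℤ} (h1 : z ≤ y) (h2 : y ≤ z + r) :
    sm F (2 * y - (z + r)) (z + r + 1) ≤ (2 * (z + r - (y : ℝ)) + 1) * M y := by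
  have h := hB.sub y (z + r - y) (by omega) (by omega) (by omega)
  have e1 : y - (z + r - y) = 2 * y - (z + r) := by ring
  have e2 : y + (z + r - y) + 1 = z + r + 1 := by ring
  rw [e1, e2] at h
  push_cast at h
  exact h

/-- the two balls at `y` and `y'` overlap -/
theorem Ball.pair (hB : Ball F M z r) {y y' : ℤ} (h1 : z - r ≤ y) (h2 : y ≤ z) (h3 : z ≤ y')
    (h4 : y' ≤ z + r) (h5 : y' - y ≤ r) (hy : M y ≤ M z) (hy' : M y' ≤ M z) :
    ∃ w, 2 * y' - (z + r) ≤ w ∧ w ≤ 2 * y - (z - r) ∧ M z + F w ≤ M y + M y' := by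
  obtain ⟨w, hw1, hw2, hmin⟩ := exists_argmin F (show 2 * y' - (z + r) ≤ 2 * y - (z - r) by omega)
  refine ⟨w, hw1, hw2, ?_⟩
  have e1 := hB.leftBall h1 h2
  have e2 := hB.rightBall h3 h4
  have e3 := le_sm (F := F) (c := F w)
    (show 2 * y' - (z + r) ≤ 2 * y - (z - r) + 1 by omega)
    fun x hx hx' => hmin x hx (by omega)
  have e4 := sm_add F (show z - r ≤ 2 * y' - (z + r) by omega)
    (show 2 * y' - (z + r) ≤ 2 * y - (z - r) + 1 by omega)
  have e5 := sm_add F (show z - r ≤ 2 * y' - (z + r) by omega)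
    (show 2 * y' - (z + r) ≤ z + r + 1 by omega)
  have e6 := hB.avg
  push_cast at e3
  by_contra hcon
  push Not at hcon
  have c1 : (z : ℝ) - r ≤ y := by exact_mod_cast h1
  have c2 : (y : ℝ) ≤ z := by exact_mod_cast h2
  have c3 : (z : ℝ) ≤ y' := by exact_mod_cast h3
  have c5 : (y' : ℝ) - y ≤ r := by exact_mod_cast h5
  have k1 : 0 < 2 * (y : ℝ) - (z - r) + 1 - (2 * y' - (z + r)) := by linarith
  have k2 : (2 * (y : ℝ) - (z - r) + 1 - (2 * y' - (z + r))) * (M y + M y' - M z) <
      (2 * (y : ℝ) - (z - r) + 1 - (2 * y' - (z + r))) * F w :=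
    mul_lt_mul_of_pos_left (by linarith) k1
  have k3 : 2 * ((y' : ℝ) - z) * M y ≤ 2 * ((y' : ℝ) - z) * M z :=
    mul_le_mul_of_nonneg_left hy (by linarith)
  have k4 : 2 * ((z : ℝ) - y) * M y' ≤ 2 * ((z : ℝ) - y) * M z :=
    mul_le_mul_of_nonneg_left hy' (by linarith)
  nlinarith

/-- the two balls at `y` and `y'` do not meet: large average between them -/
theorem Ball.gap (hB : Ball F M z r) {y y' : ℤ} (h1 : z - r ≤ y) (h2 : y ≤ z) (h3 : z ≤ y')
    (h4 : y' ≤ z + r) (h5 : r < y' - y) (hy : M y < M z) (hy' : M y' ≤ M z) :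
    (2 * (y' : ℝ) - (z + r) - (2 * y - (z - r) + 1)) * M z <
      sm F (2 * y - (z - r) + 1) (2 * y' - (z + r)) := by
  have e1 := hB.leftBall h1 h2
  have e2 := hB.rightBall h3 h4
  have e4 := sm_add F (show z - r ≤ 2 * y - (z - r) + 1 by omega)
    (show 2 * y - (z - r) + 1 ≤ 2 * y' - (z + r) by omega)
  have e5 := sm_add F (show z - r ≤ 2 * y' - (z + r) by omega)
    (show 2 * y' - (z + r) ≤ z + r + 1 by omega)
  have e6 := hB.avg
  have c1 : (z : ℝ) - r ≤ y := by exact_mod_cast h1
  have c4 : (y' : ℝ) ≤ z + r := by exact_mod_cast h4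
  have k1 : (2 * ((y : ℝ) - (z - r)) + 1) * M y < (2 * ((y : ℝ) - (z - r)) + 1) * M z :=
    mul_lt_mul_of_pos_left hy (by linarith)
  have k2 : (2 * (z + r - (y' : ℝ)) + 1) * M y' ≤ (2 * (z + r - (y' : ℝ)) + 1) * M z :=
    mul_le_mul_of_nonneg_left hy' (by linarith)
  nlinarith

theorem Ball.gap_exists (hB : Ball F M z r) {y y' : ℤ} (h1 : z - r ≤ y) (h2 : y ≤ z) (h3 : z ≤ y')
    (h4 : y' ≤ z + r) (h5 : r < y' - y) (hy : M y < M z) (hy' : M y' ≤ M z) :
    ∃ s', 2 * y - (z - r) < s' ∧ s' < 2 * y' - (z + r) ∧ M z ≤ F s' := by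
  have h := hB.gap h1 h2 h3 h4 h5 hy hy'
  obtain ⟨x, hx1, hx2, hx3⟩ := exists_ge (F := F) (c := M z)
    (show 2 * y - (z - r) + 1 < 2 * y' - (z + r) by omega) (by push_cast; linarith)
  exact ⟨x, by omega, hx2, hx3⟩

theorem Ball.gap_center (hB : Ball F M z r) {y y' : ℤ} (h1 : z - r ≤ y) (h2 : y ≤ z) (h3 : z ≤ y')
    (h4 : y' ≤ z + r) (h5 : r < y' - y) (hy : M y < M z) (hy' : M y' ≤ M z) :
    M z < M (y + y' - z) := by
  have h := hB.gap h1 h2 h3 h4 h5 hy hy'
  have h6 := hB.sub (y + y' - z) (y' - y - r - 1) (by omega) (by omega) (by omega)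
  have e1 : y + y' - z - (y' - y - r - 1) = 2 * y - (z - r) + 1 := by ring
  have e2 : y + y' - z + (y' - y - r - 1) + 1 = 2 * y' - (z + r) := by ring
  rw [e1, e2] at h6
  push_cast at h6
  have c5 : (r : ℝ) + 1 ≤ y' - y := by
    have : r + 1 ≤ y' - y := by omega
    exact_mod_cast this
  have k1 : 0 < 2 * (y' : ℝ) - (z + r) - (2 * y - (z - r) + 1) := by linarith
  by_contra hcon
  push Not at hcon
  have k2 := mul_le_mul_of_nonneg_left hcon k1.le
  nlinarith

theorem core {u v p q : ℤ} (hle : ∀ x, u ≤ x → x ≤ v → F x ≤ M x) (hu : F u = M u)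
    (hv : F v = M v) (hdet : Det F M p q) (hup : u < p) (hqv : q < v) (hpz : p ≤ z) (hzq : z ≤ q)
    (huniq : ∀ p' q', u < p' → q' < v → Det F M p' q' → p' = p ∧ q' = q)
    (hB : Ball F M z r) (ha : u < z - r) (he : z + r < v) : vr M u v ≤ vr F u v := by
  classical
  have hr := hB.one
  obtain ⟨hpq, hplat, hpm, hqm⟩ := hdet
  have hMz : M z = M q := (hplat z hpz hzq).1
  rw [← hMz] at hplat hpm hqm
  obtain ⟨s, hs1, hs2, hs3, hs4⟩ := last_att (show u ≤ z by omega) hu
    fun x hx hx' => hle x hx (by omega)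
  obtain ⟨t, ht1, ht2, ht3, ht4⟩ := first_att (show z ≤ v by omega) hv
    fun x hx hx' => hle x (by omega) hx'
  have hnatt : ∀ x, p ≤ x → x ≤ q → F x < M x := fun x h1 h2 => by
    rw [(hplat x h1 h2).1]; exact (hplat x h1 h2).2
  have hsp : s < p := by
    by_contra hcon
    have := hnatt s (by omega) (by omega)
    linarith
  have htq : q < t := by
    by_contra hcon
    have := hnatt t (by omega) (by omega)
    linarith
  -- the two lowest points of the central block
  obtain ⟨y₀, hy1, hy2, hymin⟩ := exists_argmin M hs2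
  obtain ⟨y₁, hy3, hy4, hymin'⟩ := exists_argmin M ht1
  obtain ⟨a1, a2⟩ := anti_mono (F := F) hy1 hy2 hymin (fun x h1 h2 => hs4 x h1 h2.le)
    fun p' q' h1 h2 h3 => by
      have := huniq p' q' (by omega) (by omega) h3
      omega
  obtain ⟨b1, b2⟩ := anti_mono (F := F) hy3 hy4 hymin' (fun x h1 h2 => ht4 x h1.le h2)
    fun p' q' h1 h2 h3 => by
      have := huniq p' q' (by omega) (by omega) h3
      omega
  have m1 : M y₀ < M z := lt_of_le_of_lt (hymin (p - 1) (by omega) (by omega)) hpm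
  have m2 : M y₁ < M z := lt_of_le_of_lt (hymin' (q + 1) (by omega) (by omega)) hqm
  have hzs : y₀ < z := lt_of_le_of_ne hy2 (by rintro rfl; exact lt_irrefl _ m1)
  have hzt : z < y₁ := lt_of_le_of_ne hy3 (by rintro rfl; exact lt_irrefl _ m2)
  have hFz : F z < M z := hs4 z (by omega) le_rfl
  -- they are inside the ball
  have hay : z - r < y₀ := by
    by_contra hcon
    push Not at hcon
    have h1 := a2 (z - r) z hcon (by omega) le_rfl
    have h2 := hle (z - r) ha.le (by omega)
    have h3 : F (z - r + 1) < M z := by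
      rcases eq_or_lt_of_le (show z - r + 1 ≤ z by omega) with h4 | h4
      · rw [h4]; exact hFz
      · exact lt_of_lt_of_le (hs4 (z - r + 1) (by omega) h4.le) (a2 _ z (by omega) h4.le le_rfl)
    have := hB.left
    linarith
  have hye : y₁ < z + r := by
    by_contra hcon
    push Not at hcon
    have h1 := b1 z (z + r) le_rfl (by omega) hcon
    have h2 := hle (z + r) (by omega) he.le
    have h3 : F (z + r - 1) < M z := by
      rcases eq_or_lt_of_le (show z ≤ z + r - 1 by omega) with h4 | h4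
      · rw [← h4]; exact hFz
      · exact lt_of_lt_of_le (ht4 (z + r - 1) h4.le (by omega)) (b1 z _ le_rfl h4.le (by omega))
    have := hB.right
    linarith
  have hD0 : y₁ - y₀ ≤ r := by
    by_contra hcon
    push Not at hcon
    have h1 := hB.gap_center hay.le hy2 hy3 hye.le hcon m1 m2.le
    rcases le_total (y₀ + y₁ - z) z with h2 | h2
    · have := a2 (y₀ + y₁ - z) z (by omega) h2 le_rfl
      linarith
    · have := b1 z (y₀ + y₁ - z) le_rfl h2 (by omega)
      linarith
  -- the minimal pair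
  obtain ⟨⟨y, y'⟩, hyy, hpmin⟩ := exists_min_image
    (((Icc (z - r) y₀) ×ˢ (Icc y₁ (z + r))).filter fun c => c.2 - c.1 ≤ r)
    (fun c => M c.1 + M c.2)
    ⟨(y₀, y₁), by
      rw [mem_filter, mem_product, mem_Icc, mem_Icc]
      exact ⟨⟨⟨hay.le, le_rfl⟩, le_rfl, hye.le⟩, hD0⟩⟩
  rw [mem_filter, mem_product, mem_Icc, mem_Icc] at hyy
  obtain ⟨⟨⟨g1, g2⟩, g3, g4⟩, g5⟩ := hyy
  simp only at g1 g2 g3 g4 g5
  have hmin2 : ∀ x x', z - r ≤ x → x ≤ y₀ → y₁ ≤ x' → x' ≤ z + r → x' - x ≤ r →
      M y + M y' ≤ M x + M x' := by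
    intro x x' h1 h2 h3 h4 h5
    exact hpmin (x, x') (by
      rw [mem_filter, mem_product, mem_Icc, mem_Icc]
      exact ⟨⟨⟨h1, h2⟩, h3, h4⟩, h5⟩)
  have n1 : M y ≤ M y₀ := by
    have := hmin2 y₀ y' hay.le le_rfl g3 g4 (by omega)
    linarith
  have n2 : M y' ≤ M y₁ := by
    have := hmin2 y y₁ g1 g2 le_rfl hye.le (by omega)
    linarith
  obtain ⟨w, hw1, hw2, hw3⟩ := hB.pair g1 (by omega) (by omega) g4 g5 (by linarith) (by linarith)
  -- the parts outside the central block
  have q1 := no_det' (F := F) (M := M) hs1 (fun x h1 h2 => hle x h1 (by omega)) hu hs3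
    fun p' q' h1 h2 h3 => by
      have := huniq p' q' h1 (by omega) h3
      omega
  have q2 := no_det' (F := F) (M := M) ht2 (fun x h1 h2 => hle x (by omega) h2) ht3 hv
    fun p' q' h1 h2 h3 => by
      have := huniq p' q' (by omega) h2 h3
      omega
  have v1 : vr M s t = M s + M t + 2 * M z - 2 * M y₀ - 2 * M y₁ := by
    rw [vr_add M hs2 ht1, vr_add M hy1 hy2, vr_add M hy3 hy4, vr_anti hy1 a1, vr_mono hy2 a2,
      vr_anti hy3 b1, vr_mono hy4 b2]
    ring
  rw [vr_add M hs1 (show s ≤ v by omega), vr_add M (show s ≤ t by omega) ht2,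
    vr_add F hs1 (show s ≤ v by omega), vr_add F (show s ≤ t by omega) ht2, v1]
  rcases lt_or_ge w s with c | c
  · -- `w` is left of the central block
    have h1 := sideL (F := F) (M := M) (θ := M y) (h := M z) (show u ≤ w by omega) c.le
      (fun x h1 h2 => hle x h1 (by omega)) hu hs3
      (fun p' q' h1 h2 h3 => by
        have := huniq p' q' h1 (by omega) h3
        omega) (by linarith) (by
        intro x h1 h2 h3
        rcases lt_or_ge x (z - r) with h4 | h4
        · have h5 := hB.left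
          rcases le_total (F (z - r)) (F (z - r + 1)) with h6 | h6
          · exact ⟨z - r + 1, by omega, by omega, by linarith⟩
          · exact ⟨z - r, by omega, by omega, by linarith⟩
        · rcases le_or_gt (y' - x) r with h5 | h5
          · have := hmin2 x y' h4 (by omega) g3 g4 h5
            linarith
          · obtain ⟨s', h6, h7, h8⟩ := hB.gap_exists (y := x) (y' := y') h4 (by omega)
              (by omega) g4 h5 (by linarith) (by linarith)
            exact ⟨s', by omega, by omega, h8⟩)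
    have h2 := down_le_vr F hy1
    have h3 := up_le_vr F (show y₀ ≤ t by omega)
    have h4 := hle y₀ (by omega) (by omega)
    rw [vr_add F hy1 (show y₀ ≤ t by omega)]
    linarith
  · rcases lt_or_ge t w with c' | c'
    · have h1 := sideR (F := F) (M := M) (θ := M y') (h := M z) c'.le (show w ≤ v by omega)
        (fun x h1 h2 => hle x (by omega) h2) ht3 hv
        (fun p' q' h1 h2 h3 => by
          have := huniq p' q' (by omega) h2 h3
          omega) (by linarith) (by
          intro x h1 h2 h3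
          rcases lt_or_ge (z + r) x with h4 | h4
          · have h5 := hB.right
            rcases le_total (F (z + r)) (F (z + r - 1)) with h6 | h6
            · exact ⟨z + r - 1, by omega, by omega, by linarith⟩
            · exact ⟨z + r, by omega, by omega, by linarith⟩
          · rcases le_or_gt (x - y) r with h5 | h5
            · have := hmin2 y x g1 g2 (by omega) h4 h5
              linarith
            · obtain ⟨s', h6, h7, h8⟩ := hB.gap_exists (y := y) (y' := x) g1 (by omega)
                (by omega) h4 h5 (by linarith) (by linarith)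
              exact ⟨s', by omega, by omega, h8⟩)
      have h2 := down_le_vr F (show s ≤ y₁ by omega)
      have h3 := up_le_vr F hy4
      have h4 := hle y₁ (by omega) (by omega)
      rw [vr_add F (show s ≤ y₁ by omega) hy4]
      linarith
    · have h2 := down_le_vr F c
      have h3 := up_le_vr F c'
      rw [vr_add F c c']
      linarith

end Pool.Agent.Helper53_DP
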