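import Pool.Agent.Helper53_DP.Attached

/-!
# The two inequalities on the path graph
-/

set_option autoImplicit false

open Finset

namespace Pool.Agent.Helper53_DP

open Pool.Agent.Helper51_Max

variable {N : ℕ} {g M : ℕ → ℝ}

/-! ## Reflection -/

theorem sum_reflect (g : ℕ → ℝ) {v r : ℕ} (hv : v ≤ N) :
    ∑ i ∈ I N v r, g (N - i) = ∑ i ∈ I N (N - v) r, g i := by
  refine sum_nbij' (fun i => N - i) (fun i => N - i) ?_ ?_ ?_ ?_ ?_
  · intro i hi
    simp only [I, mem_Icc] at hi ⊢
    omega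
  · intro i hi
    simp only [I, mem_Icc] at hi ⊢
    omega
  · intro i hi
    simp only [I, mem_Icc] at hi
    omega
  · intro i hi
    simp only [I, mem_Icc] at hi
    omega
  · intro i _
    rfl

theorem card_reflect {v r : ℕ} (hv : v ≤ N) : (I N (N - v) r).card = (I N v r).card := by
  rw [card_I, card_I]
  omega

theorem isMax_reflect (h : IsMax N g M) : IsMax N (fun i => g (N - i)) (fun i => M (N - i)) := by
  refine ⟨fun i => h.nonneg _, fun v hv r => ?_, fun v hv => ?_⟩
  · rw [sum_reflect g hv, ← card_reflect hv]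
    exact h.le (N - v) (by omega) r
  · obtain ⟨r, hr⟩ := h.attained (N - v) (by omega)
    refine ⟨r, ?_⟩
    rw [sum_reflect g hv, ← card_reflect hv]
    exact hr

theorem detN_reflect {p q : ℕ}
    (hd : DetN N (fun i => g (N - i)) (fun i => M (N - i)) p q) :
    DetN N g M (N - q) (N - p) := by
  obtain ⟨h1, h2, h3, h4, h5⟩ := hd
  have hpq : M (N - p) = M (N - q) := (h3 p le_rfl h1).1
  have h3' : ∀ x : ℕ, p ≤ x → x ≤ q → M (N - x) = M (N - q) ∧ g (N - x) < M (N - q) := h3
  have h4' : ∀ s, s + 1 = p → M (N - s) < M (N - q) := h4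
  have h5' : q < N → M (N - (q + 1)) < M (N - q) := h5
  refine ⟨by omega, by omega, ?_, ?_, ?_⟩
  · intro x hx hx'
    have := h3' (N - x) (by omega) (by omega)
    rw [show N - (N - x) = x by omega] at this
    rw [hpq]
    exact this
  · intro s hs
    have := h5' (by omega)
    rw [show N - (q + 1) = s by omega] at this
    rw [hpq]
    exact this
  · intro hp
    have := h4' (p - 1) (by omega)
    rw [show N - (p - 1) = N - p + 1 by omega] at this
    rw [hpq]
    exact this

theorem var_reflect (u : ℕ → ℝ) :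
    ∑ i ∈ Ico 0 N, |u (N - i) - u (N - (i + 1))| = ∑ i ∈ Ico 0 N, |u i - u (i + 1)| := by
  rw [← range_eq_Ico, ← sum_range_reflect (fun i => |u i - u (i + 1)|) N]
  refine sum_congr rfl fun i hi => ?_
  rw [mem_range] at hi
  rw [show N - 1 - i + 1 = N - i by omega, show N - (i + 1) = N - 1 - i by omega, abs_sub_comm]

/-! ## The sharp inequality -/

theorem vr_nat (u : ℕ → ℝ) : vr (zx N u) 0 N = ∑ i ∈ Ico 0 N, |u i - u (i + 1)| := by
  have := vr_zx (N := N) (g := u) (Nat.zero_le N) le_rfl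
  rwa [Nat.cast_zero] at this

theorem sharp_half (h : IsMax N g M) (hno : ∀ p q, ¬ DetN N g M p q) {i t : ℕ} (hit : i ≤ t)
    (ht : t ≤ N) (hi : g i = 0) (hatt : g t = M t) :
    ∑ j ∈ Ico 0 N, |g j - g (j + 1)| ≤ ((N : ℝ) + 1) *
      (∑ j ∈ Ico 0 N, |g j - g (j + 1)| - ∑ j ∈ Ico 0 N, |M j - M (j + 1)|) := by
  -- the last attached point
  obtain ⟨t', ht1, hmax⟩ := exists_max_image ((Icc t N).filter fun j => g j = M j) (fun j => j)
    ⟨t, by rw [mem_filter, mem_Icc]; exact ⟨⟨le_rfl, ht⟩, hatt⟩⟩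
  rw [mem_filter, mem_Icc] at ht1
  have key := sharp_aux h hno (x₀ := (i : ℤ)) (t' := (t' : ℤ)) (by omega) (by omega)
    (by rw [zx_nat (by omega)]; exact hi) (by omega)
    (by rw [zx_nat (by omega), zx_nat (by omega)]; exact ht1.2) (by
      intro x hx hx'
      refine lt_of_le_of_ne (F_le_M h x) fun he => ?_
      rw [zx_toNat (show 0 ≤ x by omega) hx', zx_toNat (show 0 ≤ x by omega) hx'] at he
      have := hmax x.toNat (by rw [mem_filter, mem_Icc]; exact ⟨by omega, he⟩)
      omega)
  rw [vr_nat, vr_nat] at key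
  exact key

theorem sharp_nat (h : IsMax N g M) (hno : ∀ p q, ¬ DetN N g M p q) {i : ℕ} (hi : i ≤ N)
    (hgi : g i = 0) :
    ∑ j ∈ Ico 0 N, |g j - g (j + 1)| ≤ ((N : ℝ) + 1) *
      (∑ j ∈ Ico 0 N, |g j - g (j + 1)| - ∑ j ∈ Ico 0 N, |M j - M (j + 1)|) := by
  obtain ⟨x, hx, hx', hatt⟩ := exists_att h
  rw [zx_toNat hx hx', zx_toNat hx hx'] at hatt
  rcases le_total i x.toNat with h1 | h1
  · exact sharp_half h hno h1 (by omega) hgi hatt
  · have key := sharp_half (isMax_reflect h) (fun p q hd => hno _ _ (detN_reflect hd))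
      (i := N - i) (t := N - x.toNat) (by omega) (by omega)
      (by show g (N - (N - i)) = 0
          rw [show N - (N - i) = i by omega]; exact hgi)
      (by show g (N - (N - x.toNat)) = M (N - (N - x.toNat))
          rw [show N - (N - x.toNat) = x.toNat by omega]; exact hatt)
    have e1 := var_reflect (N := N) g
    have e2 := var_reflect (N := N) M
    rw [e1, e2] at key
    exact key

end Pool.Agent.Helper53_DP
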