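import Pool.Agent.Helper53_DP.Final
import Pool.Agent.Helper37_EM.Graph

/-!
# Transfer to the path graph
-/

set_option autoImplicit false

open Finset

namespace Pool.Agent.Helper53_DP

open Pool.Agent.Helper51_Max
open Pool.Agent.Helper37_EM (isMax_ext ext_sub)
open SimpleGraph (pathGraph)

/-- `{p, …, q}` is a detached local maximum of `m` with respect to `u ≤ m`: `m` is constant on
`{p, …, q}` and larger than `u` there, and `m` is smaller at the neighbours `p - 1` and `q + 1`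
(if they exist). -/
def IsDetached {n : ℕ} (u m : Fin n → ℝ) (p q : Fin n) : Prop :=
  p ≤ q ∧ (∀ x, p ≤ x → x ≤ q → m x = m q ∧ u x < m q) ∧
    (∀ s : Fin n, s.val + 1 = p.val → m s < m q) ∧
    (∀ t : Fin n, q.val + 1 = t.val → m t < m q)

variable {N : ℕ}

theorem isDetached_of_detN {f : Fin (N + 1) → ℝ} {c : ℝ} {p q : ℕ}
    (h : DetN N (Helper51_Max.ext (fun v => |f v| - c))
      (Helper51_Max.ext (fun v => maximal (pathGraph (N + 1)) f v - c)) p q) :
    ∃ (hp : p < N + 1) (hq : q < N + 1),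
      IsDetached (fun v => |f v|) (maximal (pathGraph (N + 1)) f) ⟨p, hp⟩ ⟨q, hq⟩ := by
  obtain ⟨h1, h2, h3, h4, h5⟩ := h
  have hp : p < N + 1 := by omega
  have hq : q < N + 1 := by omega
  refine ⟨hp, hq, ?_, ?_, ?_, ?_⟩
  · exact Fin.le_def.mpr h1
  · intro x hx hx'
    obtain ⟨h6, h7⟩ := h3 x.val (Fin.le_def.mp hx) (Fin.le_def.mp hx')
    rw [ext_sub _ _ x.isLt, ext_sub _ _ hq] at h6
    rw [ext_sub _ _ x.isLt, ext_sub _ _ hq] at h7
    have e : (⟨x.val, x.isLt⟩ : Fin (N + 1)) = x := rfl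
    rw [e] at h6 h7
    constructor
    · linarith
    · simp only
      linarith
  · intro s hs
    have h6 := h4 s.val hs
    rw [ext_sub _ _ s.isLt, ext_sub _ _ hq] at h6
    have e : (⟨s.val, s.isLt⟩ : Fin (N + 1)) = s := rfl
    rw [e] at h6
    linarith
  · intro t ht
    have ht' : q + 1 = t.val := ht
    have h6 := h5 (by have := t.isLt; omega)
    rw [ht', ext_sub _ _ t.isLt, ext_sub _ _ hq] at h6
    have e : (⟨t.val, t.isLt⟩ : Fin (N + 1)) = t := rfl
    rw [e] at h6
    linarith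

theorem var_M_ext (f : Fin (N + 1) → ℝ) (c : ℝ) :
    ∑ i ∈ Ico 0 N, |Helper51_Max.ext (fun v => maximal (pathGraph (N + 1)) f v - c) i -
      Helper51_Max.ext (fun v => maximal (pathGraph (N + 1)) f v - c) (i + 1)| =
      variation (pathGraph (N + 1)) (maximal (pathGraph (N + 1)) f) := by
  rw [variation_path]
  refine sum_congr rfl fun v hv => ?_
  rw [mem_Ico] at hv
  rw [ext_sub _ _ (show v < N + 1 by omega), ext_sub _ _ (show v + 1 < N + 1 by omega)]
  unfold Helper51_Max.ext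
  rw [dif_pos (show v < N + 1 by omega), dif_pos (show v + 1 < N + 1 by omega)]
  congr 1
  ring

theorem var_f_ext (f : Fin (N + 1) → ℝ) (c : ℝ) :
    ∑ i ∈ Ico 0 N, |Helper51_Max.ext (fun v => |f v| - c) i -
      Helper51_Max.ext (fun v => |f v| - c) (i + 1)| ≤ variation (pathGraph (N + 1)) f := by
  rw [variation_path]
  refine sum_le_sum fun v hv => ?_
  rw [mem_Ico] at hv
  rw [ext_sub _ _ (show v < N + 1 by omega), ext_sub _ _ (show v + 1 < N + 1 by omega)]
  unfold Helper51_Max.ext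
  rw [dif_pos (show v < N + 1 by omega), dif_pos (show v + 1 < N + 1 by omega)]
  have h5 := abs_abs_sub_abs_le_abs_sub (f ⟨v, by omega⟩) (f ⟨v + 1, by omega⟩)
  have h6 : |f ⟨v, by omega⟩| - c - (|f ⟨v + 1, by omega⟩| - c) =
    |f ⟨v, by omega⟩| - |f ⟨v + 1, by omega⟩| := by ring
  rw [h6]
  exact h5

/-- the inequality with constant `1` and the two end terms -/
theorem one_ext (f : Fin (N + 1) → ℝ) (c : ℝ) (hc : ∀ v, c ≤ |f v|) (R : Fin (N + 1) → ℕ)
    (hR : ∀ p q, IsDetached (fun v => |f v|) (maximal (pathGraph (N + 1)) f) p q →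
      (∑ w ∈ Helper51_Max.ball (pathGraph (N + 1)) q (R q), |f w|) /
        ((Helper51_Max.ball (pathGraph (N + 1)) q (R q)).card : ℝ) =
        maximal (pathGraph (N + 1)) f q)
    (hdisj : ∀ p q p' q', IsDetached (fun v => |f v|) (maximal (pathGraph (N + 1)) f) p q →
      IsDetached (fun v => |f v|) (maximal (pathGraph (N + 1)) f) p' q' → q < q' →
      Disjoint (Helper51_Max.ball (pathGraph (N + 1)) q (R q))
        (Helper51_Max.ball (pathGraph (N + 1)) q' (R q'))) :
    variation (pathGraph (N + 1)) (maximal (pathGraph (N + 1)) f) +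
      (maximal (pathGraph (N + 1)) f 0 - |f 0|) +
      (maximal (pathGraph (N + 1)) f (Fin.last N) - |f (Fin.last N)|) ≤
      ∑ i ∈ Ico 0 N, |Helper51_Max.ext (fun v => |f v| - c) i -
        Helper51_Max.ext (fun v => |f v| - c) (i + 1)| := by
  have key := main_nat (isMax_ext f c hc)
    (fun q => if hq : q < N + 1 then R ⟨q, hq⟩ else 0) ?_ ?_
  · have e1 := var_M_ext f c
    rw [e1, ext_sub _ _ (Nat.succ_pos N), ext_sub _ _ (Nat.lt_succ_self N),
      ext_sub _ _ (Nat.succ_pos N), ext_sub _ _ (Nat.lt_succ_self N)] at key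
    have z1 : (⟨0, Nat.succ_pos N⟩ : Fin (N + 1)) = 0 := rfl
    have z2 : (⟨N, Nat.lt_succ_self N⟩ : Fin (N + 1)) = Fin.last N := rfl
    rw [z1, z2] at key
    linarith
  · intro p q hd
    obtain ⟨hp, hq, hd'⟩ := isDetached_of_detN hd
    have h1 := hR _ _ hd'
    have h2 : (0 : ℝ) < (Helper51_Max.ball (pathGraph (N + 1)) ⟨q, hq⟩ (R ⟨q, hq⟩)).card := by
      exact_mod_cast ball_card_pos (pathGraph (N + 1)) ⟨q, hq⟩ (R ⟨q, hq⟩)
    rw [div_eq_iff h2.ne'] at h1
    simp only [dif_pos hq]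
    rw [ext_sub _ _ hq, ← card_ball ⟨q, hq⟩ (R ⟨q, hq⟩), ← sum_ball _ ⟨q, hq⟩ (R ⟨q, hq⟩),
      sum_sub_distrib, sum_const, nsmul_eq_mul, h1]
    ring
  · intro p q p' q' hd hd' hlt
    obtain ⟨hp, hq, hd1⟩ := isDetached_of_detN hd
    obtain ⟨hp', hq', hd2⟩ := isDetached_of_detN hd'
    have h1 := hdisj _ _ _ _ hd1 hd2 (Fin.lt_def.mpr hlt)
    simp only [dif_pos hq, dif_pos hq']
    rw [← ball_map ⟨q, hq⟩, ← ball_map ⟨q', hq'⟩]
    exact (disjoint_map _).mpr h1

theorem one_path (f : Fin (N + 1) → ℝ) (R : Fin (N + 1) → ℕ)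
    (hR : ∀ p q, IsDetached (fun v => |f v|) (maximal (pathGraph (N + 1)) f) p q →
      (∑ w ∈ Helper51_Max.ball (pathGraph (N + 1)) q (R q), |f w|) /
        ((Helper51_Max.ball (pathGraph (N + 1)) q (R q)).card : ℝ) =
        maximal (pathGraph (N + 1)) f q)
    (hdisj : ∀ p q p' q', IsDetached (fun v => |f v|) (maximal (pathGraph (N + 1)) f) p q →
      IsDetached (fun v => |f v|) (maximal (pathGraph (N + 1)) f) p' q' → q < q' →
      Disjoint (Helper51_Max.ball (pathGraph (N + 1)) q (R q))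
        (Helper51_Max.ball (pathGraph (N + 1)) q' (R q'))) :
    variation (pathGraph (N + 1)) (maximal (pathGraph (N + 1)) f) +
      (maximal (pathGraph (N + 1)) f 0 - |f 0|) +
      (maximal (pathGraph (N + 1)) f (Fin.last N) - |f (Fin.last N)|) ≤
      variation (pathGraph (N + 1)) f :=
  (one_ext f 0 (fun _ => abs_nonneg _) R hR hdisj).trans (var_f_ext f 0)

theorem factor (N : ℕ) : (1 - 1 / (((N + 1 : ℕ)) : ℝ)) = N / ((N : ℝ) + 1) := by
  have hN : ((N : ℝ) + 1) ≠ 0 := by positivity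
  push_cast
  field_simp
  ring

/-- minimal at both ends: the sharp constant -/
theorem ends_path (f : Fin (N + 1) → ℝ) (R : Fin (N + 1) → ℕ)
    (hR : ∀ p q, IsDetached (fun v => |f v|) (maximal (pathGraph (N + 1)) f) p q →
      (∑ w ∈ Helper51_Max.ball (pathGraph (N + 1)) q (R q), |f w|) /
        ((Helper51_Max.ball (pathGraph (N + 1)) q (R q)).card : ℝ) =
        maximal (pathGraph (N + 1)) f q)
    (hdisj : ∀ p q p' q', IsDetached (fun v => |f v|) (maximal (pathGraph (N + 1)) f) p q →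
      IsDetached (fun v => |f v|) (maximal (pathGraph (N + 1)) f) p' q' → q < q' →
      Disjoint (Helper51_Max.ball (pathGraph (N + 1)) q (R q))
        (Helper51_Max.ball (pathGraph (N + 1)) q' (R q')))
    (h0 : ∀ v, |f 0| ≤ |f v|) (h1 : ∀ v, |f (Fin.last N)| ≤ |f v|) :
    variation (pathGraph (N + 1)) (maximal (pathGraph (N + 1)) f) ≤
      (1 - 1 / (((N + 1 : ℕ)) : ℝ)) * variation (pathGraph (N + 1)) f := by
  have key := one_ext f |f 0| h0 R hR hdisj
  have hmax := isMax_ext f |f 0| h0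
  set g := Helper51_Max.ext (fun v => |f v| - |f 0|) with hg
  set M := Helper51_Max.ext (fun v => maximal (pathGraph (N + 1)) f v - |f 0|) with hM
  have z1 : (⟨0, Nat.succ_pos N⟩ : Fin (N + 1)) = 0 := rfl
  have z2 : (⟨N, Nat.lt_succ_self N⟩ : Fin (N + 1)) = Fin.last N := rfl
  have e0 : |f (Fin.last N)| = |f 0| := le_antisymm (h1 0) (h0 _)
  have hM0 : M 0 = maximal (pathGraph (N + 1)) f 0 - |f 0| := by
    rw [hM, ext_sub _ _ (Nat.succ_pos N), z1]
  have hMN : M N = maximal (pathGraph (N + 1)) f (Fin.last N) - |f 0| := by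
    rw [hM, ext_sub _ _ (Nat.lt_succ_self N), z2]
  have k1 := vr_le_sm (F := zx N g) (c := 0) (show (0 : ℤ) ≤ N by omega) fun x _ _ =>
    F_nonneg hmax x
  rw [vr_nat] at k1
  have k2 := tb hmax (x := 0) (ρ := N) (lo := 0) (hi := N) le_rfl (by omega) (by omega)
    (by omega) (by omega)
  have k3 := tb hmax (x := N) (ρ := N) (lo := 0) (hi := N) (by omega) le_rfl (by omega)
    (by omega) (by omega)
  have k4 := F_nonneg hmax 0
  have k5 := F_nonneg hmax N
  have m0 : zx N M 0 = M 0 := by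
    have := zx_nat (N := N) (g := M) (i := 0) (Nat.zero_le N)
    rwa [Nat.cast_zero] at this
  rw [m0] at k2
  rw [zx_nat le_rfl] at k3
  push_cast at k1 k2 k3
  have e2 := var_f_ext f |f 0|
  rw [← hg] at e2
  have hN : (0 : ℝ) ≤ N := Nat.cast_nonneg N
  rw [factor, div_mul_eq_mul_div, le_div_iff₀ (by linarith)]
  have h5 := mul_le_mul_of_nonneg_left e2 hN
  rw [e0, ← hM0, ← hMN] at key
  have h6 := mul_le_mul_of_nonneg_left key (show (0 : ℝ) ≤ (N : ℝ) + 1 by linarith)
  linarith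

/-- all optimal radii of at most one plateau -/
theorem radii (f : Fin (N + 1) → ℝ) : ∃ R : Fin (N + 1) → ℕ, ∀ q,
    (∑ w ∈ Helper51_Max.ball (pathGraph (N + 1)) q (R q), |f w|) /
      ((Helper51_Max.ball (pathGraph (N + 1)) q (R q)).card : ℝ) =
      maximal (pathGraph (N + 1)) f q :=
  ⟨fun q => (exists_maximal (pathGraph (N + 1)) f q).choose, fun q =>
    (exists_maximal (pathGraph (N + 1)) f q).choose_spec⟩

/-- no detached local maximum: the sharp constant -/
theorem sharp_path (f : Fin (N + 1) → ℝ)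
    (hno : ∀ p q, ¬ IsDetached (fun v => |f v|) (maximal (pathGraph (N + 1)) f) p q) :
    variation (pathGraph (N + 1)) (maximal (pathGraph (N + 1)) f) ≤
      (1 - 1 / (((N + 1 : ℕ)) : ℝ)) * variation (pathGraph (N + 1)) f := by
  obtain ⟨x, -, hx⟩ := exists_min_image (univ : Finset (Fin (N + 1))) (fun v => |f v|)
    ⟨0, mem_univ _⟩
  have key := sharp_nat (isMax_ext f |f x| fun v => hx v (mem_univ _))
    (fun p q hd => by
      obtain ⟨hp, hq, hd'⟩ := isDetached_of_detN hd
      exact hno _ _ hd') (i := x.val) (by have := x.isLt; omega)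
    (by rw [ext_sub _ _ x.isLt]; simp)
  rw [var_M_ext] at key
  have e2 := var_f_ext f |f x|
  have hN : (0 : ℝ) ≤ N := Nat.cast_nonneg N
  rw [factor, div_mul_eq_mul_div, le_div_iff₀ (by linarith)]
  have h5 := mul_le_mul_of_nonneg_left e2 hN
  linarith

end Pool.Agent.Helper53_DP
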