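import Pool.Agent.Helper53_DP.Core

/-!
# Several detached plateaus with disjoint balls
-/

set_option autoImplicit false

open Finset

namespace Pool.Agent.Helper53_DP

/-- `F` up to `c`, the value `K` after it -/
noncomputable def cutL (F : ℤ → ℝ) (c : ℤ) (K : ℝ) : ℤ → ℝ := fun x => if x ≤ c then F x else K

/-- `F` from `c` on, the value `K` before it -/
noncomputable def cutR (F : ℤ → ℝ) (c : ℤ) (K : ℝ) : ℤ → ℝ := fun x => if c ≤ x then F x else K

theorem cutL_le {F : ℤ → ℝ} {c : ℤ} {K : ℝ} {x : ℤ} (h : x ≤ c) : cutL F c K x = F x := if_pos h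

theorem cutL_gt {F : ℤ → ℝ} {c : ℤ} {K : ℝ} {x : ℤ} (h : c < x) : cutL F c K x = K :=
  if_neg (by omega)

theorem cutR_ge {F : ℤ → ℝ} {c : ℤ} {K : ℝ} {x : ℤ} (h : c ≤ x) : cutR F c K x = F x := if_pos h

theorem cutR_lt {F : ℤ → ℝ} {c : ℤ} {K : ℝ} {x : ℤ} (h : x < c) : cutR F c K x = K :=
  if_neg (by omega)

theorem det_left_unique {F M : ℤ → ℝ} {p p' q : ℤ} (h : Det F M p q) (h' : Det F M p' q) :
    p = p' := by
  obtain ⟨h1, h2, h3, -⟩ := h
  obtain ⟨h1', h2', h3', -⟩ := h'
  by_contra hne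
  rcases lt_or_gt_of_ne hne with h4 | h4
  · have := (h2 (p' - 1) (by omega) (by omega)).1
    linarith
  · have := (h2' (p - 1) (by omega) (by omega)).1
    linarith

/-- the plateau is inside the ball -/
theorem det_left {F M : ℤ → ℝ} {p q r : ℤ} (h : Det F M p q) (hB : Ball F M q r) :
    q - r < p := by
  obtain ⟨h1, h2, -, -⟩ := h
  by_contra hcon
  push Not at hcon
  have h3 := hB.one
  have h4 := hB.left
  have h5 := (h2 (q - r) hcon (by omega)).2
  have h6 := (h2 (q - r + 1) (by omega) (by omega)).2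
  linarith

theorem Ball.congr {F M F' M' : ℤ → ℝ} {z r : ℤ} (h : Ball F M z r)
    (hF : ∀ x, z - r ≤ x → x ≤ z + r → F' x = F x) (hM : ∀ x, z - r ≤ x → x ≤ z + r → M' x = M x) :
    Ball F' M' z r := by
  have hr := h.one
  refine ⟨hr, ?_, ?_, ?_, ?_⟩
  · rw [hM z (by omega) (by omega), sm_congr fun x h1 h2 => hF x h1 (by omega)]
    exact h.avg
  · rw [hM z (by omega) (by omega), hF _ le_rfl (by omega), hF _ (by omega) (by omega)]
    exact h.left
  · rw [hM z (by omega) (by omega), hF _ (by omega) (by omega), hF _ (by omega) le_rfl]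
    exact h.right
  · intro x ρ h0 h1 h2
    rw [hM x (by omega) (by omega), sm_congr fun y h3 h4 => hF y (by omega) (by omega)]
    exact h.sub x ρ h0 h1 h2

/-- the statement proved by induction -/
def St (F M : ℤ → ℝ) (R : ℤ → ℤ) (u v : ℤ) : Prop :=
  (∀ x, u ≤ x → x ≤ v → F x ≤ M x) → F u = M u → F v = M v →
    (∀ p q, u < p → q < v → Det F M p q → Ball F M q (R q) ∧ u < q - R q ∧ q + R q < v) →
    (∀ p q p' q', u < p → q < v → Det F M p q → u < p' → q' < v → Det F M p' q' → q < q' →
      q + R q < q' - R q') → vr M u v ≤ vr F u v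

theorem leftPiece {F M : ℤ → ℝ} {R : ℤ → ℤ} {u c v : ℤ} (huc : u ≤ c) (hcv : c < v) (K : ℝ)
    (hle : ∀ x, u ≤ x → x ≤ v → F x ≤ M x) (hu : F u = M u)
    (hball : ∀ p q, u < p → q ≤ c → Det F M p q →
      Ball F M q (R q) ∧ u < q - R q ∧ q + R q ≤ c)
    (hdisj : ∀ p q p' q', u < p → q < v → Det F M p q → u < p' → q' < v → Det F M p' q' → q < q' →
      q + R q < q' - R q')
    (hK : ∀ p, u < p → p ≤ c → (∀ x, p ≤ x → x ≤ c → M x = M c ∧ F x < M c) →
      M (p - 1) < M c → ¬ K < M c)
    (ih : St (cutL F c K) (cutL M c K) R u (c + 1)) :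
    vr M u c + |K - M c| ≤ vr F u c + |K - F c| := by
  have key : ∀ p q, u < p → q < c + 1 → Det (cutL F c K) (cutL M c K) p q → Det F M p q := by
    intro p q hp hq hd
    obtain ⟨h1, h2, h3, h4⟩ := hd
    rw [cutL_le (show q ≤ c by omega)] at h2 h3 h4
    rw [cutL_le (show p - 1 ≤ c by omega)] at h3
    have h2' : ∀ x, p ≤ x → x ≤ q → M x = M q ∧ F x < M q := by
      intro x hx hx'
      have := h2 x hx hx'
      rwa [cutL_le (show x ≤ c by omega), cutL_le (show x ≤ c by omega)] at this
    rcases lt_or_eq_of_le (show q ≤ c by omega) with h5 | h5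
    · rw [cutL_le (show q + 1 ≤ c by omega)] at h4
      exact ⟨h1, h2', h3, h4⟩
    · subst h5
      rw [cutL_gt (show q < q + 1 by omega)] at h4
      exact absurd h4 (hK p hp h1 h2' h3)
  have h := ih ?_ ?_ ?_ ?_ ?_
  · rw [vr_succ _ huc, vr_succ _ huc, vr_congr (G := M) fun x _ hx => cutL_le hx,
      vr_congr (F := cutL F c K) (G := F) fun x _ hx => cutL_le hx,
      cutL_gt (show c < c + 1 by omega), cutL_gt (show c < c + 1 by omega), cutL_le le_rfl,
      cutL_le le_rfl] at h
    exact h
  · intro x hx hx'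
    rcases le_or_gt x c with h1 | h1
    · rw [cutL_le h1, cutL_le h1]; exact hle x hx (by omega)
    · rw [cutL_gt h1, cutL_gt h1]
  · rw [cutL_le huc, cutL_le huc]; exact hu
  · rw [cutL_gt (by omega), cutL_gt (by omega)]
  · intro p q hp hq hd
    obtain ⟨h1, h2, h3⟩ := hball p q hp (by omega) (key p q hp hq hd)
    refine ⟨h1.congr (fun x _ hx => cutL_le (by omega)) (fun x _ hx => cutL_le (by omega)), h2, by omega⟩
  · intro p q p' q' hp hq hd hp' hq' hd' hlt
    exact hdisj p q p' q' hp (by omega) (key p q hp hq hd) hp' (by omega) (key p' q' hp' hq' hd')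
      hlt

theorem rightPiece {F M : ℤ → ℝ} {R : ℤ → ℤ} {u c v : ℤ} (huc : u < c) (hcv : c ≤ v) (K : ℝ)
    (hle : ∀ x, u ≤ x → x ≤ v → F x ≤ M x) (hv : F v = M v)
    (hball : ∀ p q, c ≤ p → q < v → Det F M p q →
      Ball F M q (R q) ∧ c ≤ q - R q ∧ q + R q < v)
    (hdisj : ∀ p q p' q', u < p → q < v → Det F M p q → u < p' → q' < v → Det F M p' q' → q < q' →
      q + R q < q' - R q')
    (hK : ∀ q, c ≤ q → q < v → (∀ x, c ≤ x → x ≤ q → M x = M c ∧ F x < M c) →
      M (q + 1) < M c → ¬ K < M c)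
    (ih : St (cutR F c K) (cutR M c K) R (c - 1) v) :
    vr M c v + |M c - K| ≤ vr F c v + |F c - K| := by
  have key : ∀ p q, c - 1 < p → q < v → Det (cutR F c K) (cutR M c K) p q → Det F M p q := by
    intro p q hp hq hd
    obtain ⟨h1, h2, h3, h4⟩ := hd
    rw [cutR_ge (show c ≤ q by omega)] at h2 h3 h4
    rw [cutR_ge (show c ≤ q + 1 by omega)] at h4
    have h2' : ∀ x, p ≤ x → x ≤ q → M x = M q ∧ F x < M q := by
      intro x hx hx'
      have := h2 x hx hx'
      rwa [cutR_ge (show c ≤ x by omega), cutR_ge (show c ≤ x by omega)] at this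
    rcases lt_or_eq_of_le (show c ≤ p by omega) with h5 | h5
    · rw [cutR_ge (show c ≤ p - 1 by omega)] at h3
      exact ⟨h1, h2', h3, h4⟩
    · subst h5
      rw [cutR_lt (show c - 1 < c by omega)] at h3
      have h6 := (h2' c le_rfl h1).1
      rw [← h6] at h3 h4
      refine absurd h3 (hK q h1 hq (fun x hx hx' => ?_) h4)
      have := h2' x hx hx'
      rw [← h6] at this
      exact this
  have h := ih ?_ ?_ ?_ ?_ ?_
  · rw [vr_add _ (show c - 1 ≤ c - 1 + 1 by omega) (show c - 1 + 1 ≤ v by omega),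
      vr_add _ (show c - 1 ≤ c - 1 + 1 by omega) (show c - 1 + 1 ≤ v by omega),
      vr_succ _ le_rfl, vr_succ _ le_rfl, vr_self, vr_self, show c - 1 + 1 = c by ring,
      vr_congr (G := M) fun x hx _ => cutR_ge hx,
      vr_congr (F := cutR F c K) (G := F) fun x hx _ => cutR_ge hx,
      cutR_lt (show c - 1 < c by omega), cutR_lt (show c - 1 < c by omega), cutR_ge le_rfl,
      cutR_ge le_rfl] at h
    linarith
  · intro x hx hx'
    rcases lt_or_ge x c with h1 | h1
    · rw [cutR_lt h1, cutR_lt h1]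
    · rw [cutR_ge h1, cutR_ge h1]; exact hle x (by omega) hx'
  · rw [cutR_lt (by omega), cutR_lt (by omega)]
  · rw [cutR_ge hcv, cutR_ge hcv]; exact hv
  · intro p q hp hq hd
    obtain ⟨h1, h2, h3⟩ := hball p q (by omega) hq (key p q hp hq hd)
    refine ⟨h1.congr (fun x hx _ => cutR_ge (by omega)) (fun x hx _ => cutR_ge (by omega)), by omega, h3⟩
  · intro p q p' q' hp hq hd hp' hq' hd' hlt
    exact hdisj p q p' q' (by omega) hq (key p q hp hq hd) (by omega) hq' (key p' q' hp' hq' hd')
      hlt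

theorem multi : ∀ k : ℕ, ∀ (F M : ℤ → ℝ) (R : ℤ → ℤ) (u v : ℤ), (v - u).toNat ≤ k → u ≤ v →
    St F M R u v := by
  intro k
  induction k with
  | zero =>
    intro F M R u v hk huv _ _ _ _ _
    have : v = u := by omega
    subst this
    rw [vr_self, vr_self]
  | succ k ih =>
    classical
    intro F M R u v hk huv hle hu hv hball hdisj
    by_cases hex : ∃ q p, u < p ∧ q < v ∧ Det F M p q
    swap
    · push Not at hex
      exact no_det' huv hle hu hv fun p q hp hq => hex q p hp hq
    -- the leftmost detached plateau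
    obtain ⟨q, hq, hqmin⟩ := exists_min_image
      ((Icc u v).filter fun q => ∃ p, u < p ∧ q < v ∧ Det F M p q) (fun q => q) (by
        obtain ⟨q, p, hp, hq, hd⟩ := hex
        refine ⟨q, ?_⟩
        rw [mem_filter, mem_Icc]
        exact ⟨⟨by have := hd.1; omega, hq.le⟩, p, hp, hq, hd⟩)
    rw [mem_filter, mem_Icc] at hq
    obtain ⟨⟨hq1, hq2⟩, p, hp, hqv, hd⟩ := hq
    have hqmin' : ∀ p' q', u < p' → q' < v → Det F M p' q' → q ≤ q' := fun p' q' h1 h2 h3 =>
      hqmin q' (by
        rw [mem_filter, mem_Icc]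
        exact ⟨⟨by have := h3.1; omega, h2.le⟩, p', h1, h2, h3⟩)
    obtain ⟨hB, hB1, hB2⟩ := hball p q hp hqv hd
    have hr := hB.one
    by_cases hone : ∀ p' q', u < p' → q' < v → Det F M p' q' → q' = q
    · refine core (z := q) (r := R q) hle hu hv hd hp hqv hd.1 le_rfl ?_ hB hB1 hB2
      intro p' q' h1 h2 h3
      have h4 := hone p' q' h1 h2 h3
      subst h4
      exact ⟨det_left_unique h3 hd, rfl⟩
    · push Not at hone
      obtain ⟨p₂, q₂, hp₂, hq₂, hd₂, hne⟩ := hone
      have hlt : q < q₂ := lt_of_le_of_ne (hqmin' p₂ q₂ hp₂ hq₂ hd₂) (Ne.symm hne)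
      have hdis := hdisj p q p₂ q₂ hp hqv hd hp₂ hq₂ hd₂ hlt
      obtain ⟨hB', hB1', hB2'⟩ := hball p₂ q₂ hp₂ hq₂ hd₂
      have hr' := hB'.one
      have hcv : q + R q < v := hB2
      have hFc := hle (q + R q) (by omega) hcv.le
      -- induction hypotheses for the two parts
      have ihL : ∀ K, St (cutL F (q + R q) K) (cutL M (q + R q) K) R u (q + R q + 1) := fun K =>
        ih _ _ _ _ _ (by omega) (by omega)
      have ihR : ∀ K, St (cutR F (q + R q) K) (cutR M (q + R q) K) R (q + R q - 1) v := fun K =>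
        ih _ _ _ _ _ (by omega) (by omega)
      have hbL : ∀ p' q', u < p' → q' ≤ q + R q → Det F M p' q' →
          Ball F M q' (R q') ∧ u < q' - R q' ∧ q' + R q' ≤ q + R q := by
        intro p' q' h1 h2 h3
        obtain ⟨h4, h5, h6⟩ := hball p' q' h1 (by omega) h3
        have h7 : q' = q := by
          by_contra hcon
          have h8 := hdisj p q p' q' hp hqv hd h1 (by omega) h3
            (lt_of_le_of_ne (hqmin' p' q' h1 (by omega) h3) (Ne.symm hcon))
          have := h4.one
          omega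
        subst h7
        exact ⟨h4, h5, le_rfl⟩
      have hbR : ∀ p' q', q + R q ≤ p' → q' < v → Det F M p' q' →
          Ball F M q' (R q') ∧ q + R q ≤ q' - R q' ∧ q' + R q' < v := by
        intro p' q' h1 h2 h3
        have h8 := h3.1
        obtain ⟨h4, h5, h6⟩ := hball p' q' (by omega) h2 h3
        have h7 := hdisj p q p' q' hp hqv hd (by omega) h2 h3 (by omega)
        exact ⟨h4, by omega, h6⟩
      have hsplit1 := vr_add M (show u ≤ q + R q by omega) hcv.le
      have hsplit2 := vr_add F (show u ≤ q + R q by omega) hcv.le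
      -- on one side the value at the cut may be continued by a low value
      by_cases hLL : ∃ p', u < p' ∧ p' ≤ q + R q ∧
          (∀ x, p' ≤ x → x ≤ q + R q → M x = M (q + R q) ∧ F x < M (q + R q)) ∧
          M (p' - 1) < M (q + R q)
      · have hRL : ¬ ∃ q', q + R q ≤ q' ∧ q' < v ∧
            (∀ x, q + R q ≤ x → x ≤ q' → M x = M (q + R q) ∧ F x < M (q + R q)) ∧
            M (q' + 1) < M (q + R q) := by
          rintro ⟨q', h1, h2, h3, h4⟩
          obtain ⟨p', h5, h6, h7, h8⟩ := hLL
          have e := (h3 q' h1 le_rfl).1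
          have hd' : Det F M p' q' := by
            refine ⟨by omega, ?_, by rw [e]; exact h8, by rw [e]; exact h4⟩
            intro x hx hx'
            rw [e]
            rcases le_total x (q + R q) with h9 | h9
            · exact h7 x hx h9
            · exact h3 x h9 hx'
          obtain ⟨h9, h10, h11⟩ := hball p' q' h5 h2 hd'
          have h12 := hdisj p q p' q' hp hqv hd h5 h2 hd' (by omega)
          have h13 := det_left hd' h9
          omega
        have hL := leftPiece (u := u) (v := v) (show u ≤ q + R q by omega) hcv (M (q + R q)) hle hu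
          hbL hdisj (fun _ _ _ _ _ => lt_irrefl _) (ihL _)
        have hR := rightPiece (u := u) (v := v) (show u < q + R q by omega) hcv.le (F (q + R q)) hle
          hv hbR hdisj (fun q' h1 h2 h3 h4 => absurd ⟨q', h1, h2, h3, h4⟩ hRL) (ihR _)
        rw [sub_self, abs_zero, abs_of_nonneg (by linarith)] at hL
        rw [sub_self, abs_zero, abs_of_nonneg (by linarith)] at hR
        linarith
      · have hL := leftPiece (u := u) (v := v) (show u ≤ q + R q by omega) hcv (F (q + R q)) hle hu
          hbL hdisj (fun p' h1 h2 h3 h4 => absurd ⟨p', h1, h2, h3, h4⟩ hLL) (ihL _)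
        have hR := rightPiece (u := u) (v := v) (show u < q + R q by omega) hcv.le (M (q + R q)) hle
          hv hbR hdisj (fun _ _ _ _ _ => lt_irrefl _) (ihR _)
        rw [sub_self, abs_zero, abs_of_nonpos (by linarith)] at hL
        rw [sub_self, abs_zero, abs_of_nonpos (by linarith)] at hR
        linarith

end Pool.Agent.Helper53_DP
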