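import Pool.Agent.Helper53_DP.Multi
import Pool.Agent.Helper37_EM.Graph

/-!
# The maximal function on `{0, …, N}`: detached plateaus have genuine balls
-/

set_option autoImplicit false

open Finset

namespace Pool.Agent.Helper53_DP

open Pool.Agent.Helper51_Max

/-- extension of a function on `{0, …, N}` to the integers by zero -/
noncomputable def zx (N : ℕ) (g : ℕ → ℝ) (x : ℤ) : ℝ := if 0 ≤ x ∧ x ≤ N then g x.toNat else 0

variable {N : ℕ} {g M : ℕ → ℝ}

theorem zx_nat {i : ℕ} (h : i ≤ N) : zx N g (i : ℤ) = g i := by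
  unfold zx
  rw [if_pos ⟨by omega, by omega⟩]
  simp

theorem zx_neg {x : ℤ} (h : x < 0) : zx N g x = 0 := if_neg (by omega)

theorem zx_gt {x : ℤ} (h : (N : ℤ) < x) : zx N g x = 0 := if_neg (by omega)

theorem zx_toNat {x : ℤ} (h : 0 ≤ x) (h' : x ≤ N) : zx N g x = g x.toNat := if_pos ⟨h, h'⟩

theorem sm_zx {a b : ℕ} (hb : b ≤ N + 1) :
    sm (zx N g) (a : ℤ) (b : ℤ) = ∑ i ∈ Ico a b, g i := by
  rw [sum_Ico_eq_sum_range]
  unfold sm
  have h1 : ((b : ℤ) - a).toNat = b - a := by omega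
  rw [h1]
  refine sum_congr rfl fun i hi => ?_
  rw [mem_range] at hi
  have h2 : (a : ℤ) + (i : ℤ) = ((a + i : ℕ) : ℤ) := by push_cast; ring
  rw [h2, zx_nat (by omega)]

theorem vr_zx {a b : ℕ} (hab : a ≤ b) (hb : b ≤ N) :
    vr (zx N g) (a : ℤ) (b : ℤ) = ∑ i ∈ Ico a b, |g i - g (i + 1)| := by
  rw [sum_Ico_eq_sum_range]
  unfold vr sm
  have h1 : ((b : ℤ) - a).toNat = b - a := by omega
  rw [h1]
  refine sum_congr rfl fun i hi => ?_
  rw [mem_range] at hi
  have h2 : (a : ℤ) + (i : ℤ) = ((a + i : ℕ) : ℤ) := by push_cast; ring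
  have h3 : ((a + i : ℕ) : ℤ) + 1 = ((a + i + 1 : ℕ) : ℤ) := by push_cast; ring
  show |zx N g ((a : ℤ) + (i : ℤ) + 1) - zx N g ((a : ℤ) + (i : ℤ))| = _
  rw [h2, h3, zx_nat (by omega), zx_nat (by omega), abs_sub_comm]

theorem vr_zx_all : vr (zx N g) (-1) (N + 1) =
    |g 0| + ∑ i ∈ Ico 0 N, |g i - g (i + 1)| + |g N| := by
  have h1 : vr (zx N g) (-1) (N + 1) = vr (zx N g) (-1) 0 + vr (zx N g) 0 (N + 1) :=
    vr_add _ (by omega) (by omega)
  have h2 : vr (zx N g) 0 (N + 1) = vr (zx N g) 0 N + |zx N g (N + 1) - zx N g N| :=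
    vr_succ _ (by omega)
  have h3 : vr (zx N g) (-1) 0 = |g 0| := by
    have h4 := vr_succ (zx N g) (show (-1 : ℤ) ≤ -1 from le_rfl)
    rw [vr_self, show (-1 : ℤ) + 1 = 0 by ring, zx_neg (show (-1 : ℤ) < 0 by omega)] at h4
    have h5 : zx N g 0 = g 0 := by
      have := zx_nat (N := N) (g := g) (show 0 ≤ N by omega)
      simpa using this
    rw [h4, h5, zero_add, sub_zero]
  have h6 : zx N g (N + 1) = 0 := zx_gt (by omega)
  have h7 : zx N g N = g N := zx_nat le_rfl
  have h8 := vr_zx (N := N) (g := g) (Nat.zero_le N) le_rfl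
  rw [Nat.cast_zero] at h8
  rw [h1, h2, h3, h6, h7, h8, zero_sub, abs_neg]
  ring

/-- `[p, q]` is a detached plateau on the path `{0, …, N}` -/
def DetN (N : ℕ) (g M : ℕ → ℝ) (p q : ℕ) : Prop :=
  p ≤ q ∧ q ≤ N ∧ (∀ x, p ≤ x → x ≤ q → M x = M q ∧ g x < M q) ∧
    (∀ s, s + 1 = p → M s < M q) ∧ (q < N → M (q + 1) < M q)

theorem detN_of_det {p q : ℤ} (hp : -1 < p) (hq : q < N + 1)
    (h : Det (zx N g) (zx N M) p q) : DetN N g M p.toNat q.toNat := by
  obtain ⟨h1, h2, h3, h4⟩ := h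
  have hq0 : zx N M q = M q.toNat := zx_toNat (by omega) (by omega)
  rw [hq0] at h2 h3 h4
  refine ⟨by omega, by omega, ?_, ?_, ?_⟩
  · intro x hx hx'
    have := h2 x (by omega) (by omega)
    rwa [zx_nat (by omega), zx_nat (by omega)] at this
  · intro s hs
    have h5 : p - 1 = (s : ℤ) := by omega
    rw [h5, zx_nat (by omega)] at h3
    exact h3
  · intro hqN
    have h5 : q + 1 = ((q.toNat + 1 : ℕ) : ℤ) := by push_cast; omega
    rw [h5, zx_nat (by omega)] at h4
    exact h4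

theorem g_le (h : IsMax N g M) {v : ℕ} (hv : v ≤ N) : g v ≤ M v :=
  Helper37_EM.g_le h hv

theorem I_eq_Ico {N v r : ℕ} (h1 : r ≤ v) (h2 : v + r ≤ N) : I N v r = Ico (v - r) (v + r + 1) := by
  ext i
  simp only [I, mem_Icc, mem_Ico]
  omega

theorem card_I_gen {N v r : ℕ} (h1 : r ≤ v) (h2 : v + r ≤ N) : (I N v r).card = 2 * r + 1 := by
  rw [card_I]; omega

/-- a ball of `w` which is the ball of `v` without some places at which `g` is smaller than
`M v` -/
theorem remove (h : IsMax N g M) {v w r r' : ℕ} (hv : v ≤ N) (hw : w ≤ N)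
    (hr : M v * ((I N v r).card : ℝ) = ∑ i ∈ I N v r, g i) (hsub : I N w r' ⊆ I N v r)
    (hlt : ∀ i ∈ I N v r \ I N w r', g i ≤ M v) : M v ≤ M w := by
  have h1 := h.le w hw r'
  have h2 : ∑ i ∈ I N v r \ I N w r', g i ≤ M v * ((I N v r \ I N w r').card : ℝ) := by
    have := sum_le_sum hlt
    rw [sum_const, nsmul_eq_mul, mul_comm] at this
    exact this
  have h3 := sum_sdiff (f := g) hsub
  have h4 : ((I N v r \ I N w r').card : ℝ) + ((I N w r').card : ℝ) = ((I N v r).card : ℝ) := by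
    exact_mod_cast card_sdiff_add_card_eq_card hsub
  have h5 : (0 : ℝ) < ((I N w r').card : ℝ) := by exact_mod_cast card_I_pos r' hw
  rw [← h4, ← h3] at hr
  have h6 : M v * ((I N w r').card : ℝ) ≤ M w * ((I N w r').card : ℝ) := by nlinarith
  exact le_of_mul_le_mul_right h6 h5

theorem det_right_lt (h : IsMax N g M) {p q : ℕ} (hd : DetN N g M p q) : q < N := by
  obtain ⟨h1, h2, h3, h4, -⟩ := hd
  by_contra hcon
  have hqN : q = N := by omega
  obtain ⟨r, hr⟩ := h.attained p (by omega)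
  have hMp : M p = M q := (h3 p le_rfl h1).1
  rcases Nat.eq_zero_or_pos p with h0 | h0
  · -- the whole path
    subst h0
    have h5 : ∑ i ∈ I N 0 r, g i < ∑ _i ∈ I N 0 r, M q := by
      refine sum_lt_sum_of_nonempty (card_pos.mp (card_I_pos r (by omega))) fun i hi => ?_
      simp only [I, mem_Icc] at hi
      exact (h3 i (by omega) (by omega)).2
    rw [sum_const, nsmul_eq_mul, ← hr, hMp, mul_comm] at h5
    exact lt_irrefl _ h5
  · rcases Nat.eq_zero_or_pos r with hr0 | hr0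
    · subst hr0
      have h5 : I N p 0 = {p} := by
        ext i; simp only [I, mem_Icc, mem_singleton]; omega
      rw [h5] at hr
      simp only [card_singleton, sum_singleton, Nat.cast_one, mul_one] at hr
      have := (h3 p le_rfl h1).2
      linarith
    · have h5 : M p ≤ M (p - 1) := by
        refine remove h (r' := r - 1) (by omega) (by omega) hr ?_ ?_
        · intro i hi
          simp only [I, mem_Icc] at hi ⊢
          omega
        · intro i hi
          rw [mem_sdiff] at hi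
          simp only [I, mem_Icc] at hi
          rw [hMp]
          exact (h3 i (by omega) (by omega)).2.le
      have h6 := h4 (p - 1) (by omega)
      linarith

theorem det_left_pos (h : IsMax N g M) {p q : ℕ} (hd : DetN N g M p q) : 0 < p := by
  have hqN := det_right_lt h hd
  obtain ⟨h1, h2, h3, -, h4⟩ := hd
  by_contra hcon
  have hp0 : p = 0 := by omega
  subst hp0
  obtain ⟨r, hr⟩ := h.attained q (by omega)
  rcases Nat.eq_zero_or_pos r with hr0 | hr0
  · subst hr0
    have h5 : I N q 0 = {q} := by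
      ext i; simp only [I, mem_Icc, mem_singleton]; omega
    rw [h5] at hr
    simp only [card_singleton, sum_singleton, Nat.cast_one, mul_one] at hr
    have := (h3 q h1 le_rfl).2
    linarith
  · have h5 : M q ≤ M (q + 1) := by
      refine remove h (r' := r - 1) (by omega) (by omega) hr ?_ ?_
      · intro i hi
        simp only [I, mem_Icc] at hi ⊢
        omega
      · intro i hi
        rw [mem_sdiff] at hi
        simp only [I, mem_Icc] at hi
        exact (h3 i (by omega) (by omega)).2.le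
    have h6 := h4 hqN
    linarith

/-- an optimal ball at the right end of a detached plateau is genuine -/
theorem genuine (h : IsMax N g M) {p q r : ℕ} (hd : DetN N g M p q)
    (hr : M q * ((I N q r).card : ℝ) = ∑ i ∈ I N q r, g i) : 1 ≤ r ∧ r ≤ q ∧ q + r ≤ N := by
  have hqN := det_right_lt h hd
  have hp := det_left_pos h hd
  obtain ⟨h1, h2, h3, h5, h4⟩ := hd
  have hr1 : 1 ≤ r := by
    by_contra hcon
    have hr0 : r = 0 := by omega
    subst hr0
    have h5 : I N q 0 = {q} := by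
      ext i; simp only [I, mem_Icc, mem_singleton]; omega
    rw [h5] at hr
    simp only [card_singleton, sum_singleton, Nat.cast_one, mul_one] at hr
    have := (h3 q h1 le_rfl).2
    linarith
  have hright : q + r ≤ N := by
    by_contra hcon
    have h6 : M q ≤ M (q + 1) := by
      refine remove h (r' := r + 1) (by omega) (by omega) hr ?_ ?_
      · intro i hi
        simp only [I, mem_Icc] at hi ⊢
        omega
      · intro i hi
        rw [mem_sdiff] at hi
        simp only [I, mem_Icc] at hi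
        omega
    have := h4 hqN
    linarith
  refine ⟨hr1, ?_, hright⟩
  by_contra hcon
  have h6 : M q ≤ M (p - 1) := by
    refine remove h (r' := q + r - (p - 1)) (by omega) (by omega) hr ?_ ?_
    · intro i hi
      simp only [I, mem_Icc] at hi ⊢
      omega
    · intro i hi
      rw [mem_sdiff] at hi
      simp only [I, mem_Icc] at hi
      omega
  have := h5 (p - 1) (by omega)
  linarith

theorem sub_ball (h : IsMax N g M) {x ρ : ℕ} (h1 : ρ ≤ x) (h2 : x + ρ ≤ N) :
    sm (zx N g) ((x : ℤ) - ρ) (x + ρ + 1) ≤ (2 * (ρ : ℝ) + 1) * M x := by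
  have h3 := h.le x (by omega) ρ
  rw [card_I_gen h1 h2, I_eq_Ico h1 h2, ← sm_zx (N := N) (by omega)] at h3
  have e1 : (((x - ρ : ℕ)) : ℤ) = (x : ℤ) - ρ := by omega
  rw [e1] at h3
  push_cast at h3
  linarith

theorem ball_of_det (h : IsMax N g M) {p q r : ℕ} (hd : DetN N g M p q)
    (hr : M q * ((I N q r).card : ℝ) = ∑ i ∈ I N q r, g i) :
    Ball (zx N g) (zx N M) (q : ℤ) (r : ℤ) := by
  obtain ⟨r1, r2, r3⟩ := genuine h hd hr
  have hqN := det_right_lt h hd
  have hp := det_left_pos h hd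
  obtain ⟨h1, h2, h3, h5, h4⟩ := hd
  have havg : (2 * (r : ℝ) + 1) * M q = sm (zx N g) ((q : ℤ) - r) (q + r + 1) := by
    rw [card_I_gen r2 r3, I_eq_Ico r2 r3, ← sm_zx (N := N) (by omega)] at hr
    have e1 : (((q - r : ℕ)) : ℤ) = (q : ℤ) - r := by omega
    rw [e1] at hr
    push_cast at hr
    linarith
  have hMq : zx N M (q : ℤ) = M q := zx_nat (by omega)
  refine ⟨by omega, ?_, ?_, ?_, ?_⟩
  · rw [hMq, ← havg]
    push_cast
    exact le_rfl
  · -- ball of `q + 1`
    have h6 := sub_ball h (x := q + 1) (ρ := r - 1) (by omega) (by omega)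
    have h7 := h4 hqN
    have e1 : (((q + 1 : ℕ)) : ℤ) - ((r - 1 : ℕ) : ℤ) = (q : ℤ) - r + 1 + 1 := by omega
    have e2 : (((q + 1 : ℕ)) : ℤ) + ((r - 1 : ℕ) : ℤ) + 1 = (q : ℤ) + r + 1 := by omega
    rw [e1, e2] at h6
    have e3 : (((r - 1 : ℕ)) : ℝ) = (r : ℝ) - 1 := by
      rw [Nat.cast_sub r1, Nat.cast_one]
    rw [e3] at h6
    have h8 := sm_add (zx N g) (show (q : ℤ) - r ≤ (q : ℤ) - r + 1 + 1 by omega)
      (show (q : ℤ) - r + 1 + 1 ≤ (q : ℤ) + r + 1 by omega)
    rw [sm_succ _ (show (q : ℤ) - r ≤ (q : ℤ) - r + 1 by omega), sm_succ _ le_rfl, sm_self] at h8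
    have c1 : (1 : ℝ) ≤ r := by exact_mod_cast r1
    have h9 : (2 * ((r : ℝ) - 1) + 1) * M (q + 1) ≤ (2 * ((r : ℝ) - 1) + 1) * M q :=
      mul_le_mul_of_nonneg_left h7.le (by linarith)
    rw [hMq]
    linarith
  · have h6 := sub_ball h (x := q - 1) (ρ := r - 1) (by omega) (by omega)
    have h7 : M (q - 1) ≤ M q := by
      rcases Nat.lt_or_ge (q - 1) p with h8 | h8
      · exact (h5 (q - 1) (by omega)).le
      · exact (h3 (q - 1) h8 (by omega)).1.le
    have e1 : (((q - 1 : ℕ)) : ℤ) - ((r - 1 : ℕ) : ℤ) = (q : ℤ) - r := by omega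
    have e2 : (((q - 1 : ℕ)) : ℤ) + ((r - 1 : ℕ) : ℤ) + 1 = (q : ℤ) + r - 1 := by omega
    rw [e1, e2] at h6
    have e3 : (((r - 1 : ℕ)) : ℝ) = (r : ℝ) - 1 := by
      rw [Nat.cast_sub r1, Nat.cast_one]
    rw [e3] at h6
    have h8 := sm_succ (zx N g) (show (q : ℤ) - r ≤ (q : ℤ) + r - 1 by omega)
    have h8' := sm_succ (zx N g) (show (q : ℤ) - r ≤ (q : ℤ) + r by omega)
    rw [show (q : ℤ) + r - 1 + 1 = (q : ℤ) + r by ring] at h8
    have c1 : (1 : ℝ) ≤ r := by exact_mod_cast r1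
    have h9 : (2 * ((r : ℝ) - 1) + 1) * M (q - 1) ≤ (2 * ((r : ℝ) - 1) + 1) * M q :=
      mul_le_mul_of_nonneg_left h7 (by linarith)
    rw [hMq]
    linarith
  · intro x ρ h0 h6 h7
    have h8 := sub_ball h (x := x.toNat) (ρ := ρ.toNat) (by omega) (by omega)
    have e1 : ((x.toNat : ℕ) : ℤ) = x := by omega
    have e2 : ((ρ.toNat : ℕ) : ℤ) = ρ := by omega
    have e3 : ((ρ.toNat : ℕ) : ℝ) = (ρ : ℝ) := by
      exact_mod_cast congrArg (fun n : ℤ => (n : ℝ)) e2
    rw [e1, e2, e3] at h8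
    rw [zx_toNat (show 0 ≤ x by omega) (show x ≤ N by omega)]
    exact h8

/-- the inequality on `{0, …, N}` -/
theorem main_nat (h : IsMax N g M) (R : ℕ → ℕ)
    (hR : ∀ p q, DetN N g M p q →
      M q * ((I N q (R q)).card : ℝ) = ∑ i ∈ I N q (R q), g i)
    (hdisj : ∀ p q p' q', DetN N g M p q → DetN N g M p' q' → q < q' →
      Disjoint (I N q (R q)) (I N q' (R q'))) :
    (∑ i ∈ Ico 0 N, |M i - M (i + 1)|) + M 0 + M N ≤
      (∑ i ∈ Ico 0 N, |g i - g (i + 1)|) + g 0 + g N := by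
  have key := multi _ (zx N g) (zx N M) (fun x => (R x.toNat : ℤ)) (-1) (N + 1) le_rfl (by omega)
    ?_ ?_ ?_ ?_ ?_
  · rw [vr_zx_all, vr_zx_all, abs_of_nonneg (h.nonneg 0), abs_of_nonneg (h.nonneg N),
      abs_of_nonneg (h.M_nonneg (Nat.zero_le N)), abs_of_nonneg (h.M_nonneg le_rfl)] at key
    linarith
  · intro x h1 h2
    rcases lt_or_ge x 0 with h3 | h3
    · rw [zx_neg h3, zx_neg h3]
    · rcases lt_or_ge (N : ℤ) x with h4 | h4
      · rw [zx_gt h4, zx_gt h4]
      · rw [zx_toNat h3 h4, zx_toNat h3 h4]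
        exact g_le h (by omega)
  · rw [zx_neg (by omega), zx_neg (by omega)]
  · rw [zx_gt (by omega), zx_gt (by omega)]
  · intro p q hp hq hd
    have hd' := detN_of_det hp hq hd
    have h0 := hd.1
    have h1 := hR _ _ hd'
    have h2 := ball_of_det h hd' h1
    obtain ⟨r1, r2, r3⟩ := genuine h hd' h1
    have e1 : ((q.toNat : ℕ) : ℤ) = q := by omega
    rw [e1] at h2
    refine ⟨h2, ?_, ?_⟩
    · show (-1 : ℤ) < q - (R q.toNat : ℤ)
      omega
    · show q + (R q.toNat : ℤ) < N + 1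
      omega
  · intro p q p' q' hp hq hd hp' hq' hd' hlt
    show q + (R q.toNat : ℤ) < q' - (R q'.toNat : ℤ)
    have k1 := detN_of_det hp hq hd
    have k2 := detN_of_det hp' hq' hd'
    have g1 := genuine h k1 (hR _ _ k1)
    have g2 := genuine h k2 (hR _ _ k2)
    have h0 := hd.1
    have h0' := hd'.1
    have h3 := hdisj _ _ _ _ k1 k2 (by omega)
    by_contra hcon
    rw [disjoint_left] at h3
    refine h3 (a := max q.toNat (q'.toNat - R q'.toNat)) ?_ ?_
    · simp only [I, mem_Icc]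
      omega
    · simp only [I, mem_Icc]
      omega

end Pool.Agent.Helper53_DP
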