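import Pool.Agent.Helper53_DP.V2

/-!
# Squad TMX, row InF: first and last good peak
-/

set_option autoImplicit false

namespace Pool.Agent.Helper53_DP.VInF

open Pool.Agent.TMX hiding DB Fam CrR CrL Sta Ord LP SB SC SA InF HAd BGx
open Pool.Agent.Helper53_DP.V2

open Finset
open Pool.Agent.Helper51_Max (I IsMax)
open Pool.Agent.Helper37_EM (var var_add)

/-- **InF.** -/
theorem inF : InF := by
  intro hV hChB hVarS _ N g M Bad y z y' r c i j hF pf pl hpf hpl hall hup hdn
  have hgM : ∀ p, Pk N g M p → g p = M p := fun p hp =>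
    le_antisymm (Pool.Agent.Helper37_EM.g_le hF.max hp.1) hp.2.1
  have happ := (hChB N g).1
  have hone := (hChB N g).2.2.2.2
  have hpart : ∀ s t : ℕ, Gap N g M s t → Bad s → ∀ p p' : ℕ, p ≤ c s → c s ≤ p' → p' ≤ N →
      VG N g p p' (M (y s) + M (y' s) - M (z s)) := by
    intro s t hG hB p p' h1 h2 h3
    have hbd := hF.bd s t hG hB
    exact hV N g M hF.max (y s) (z s) (y' s) (r s) (c s) (y s) (y' s) p p'
      ⟨hbd.geo, hbd.top, hbd.c1, hbd.c2, hbd.cy, hbd.cy', hbd.cmin, hbd.geo, le_rfl, le_rfl,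
        h1, h2, h3, Or.inl rfl, Or.inl rfl⟩
  have hpfN : pf ≤ N := hpf.1
  have hplN : pl ≤ N := hpl.1
  have hv1 : M 0 + var M 0 pf = g pf := by
    rw [hVarS.1 M 0 pf (Nat.zero_le _) hup, hgM pf hpf]
    ring
  refine ⟨⟨?_, ?_, ?_⟩, ?_⟩
  · intro _ _
    refine ⟨pf, 0, Ch.nil pf, ?_⟩
    rw [hv1, add_zero]
  · rintro s t ⟨hG, -, h1, -⟩ Q' _
    exfalso
    have h2 := (hall s hG.left).1
    have h3 := hG.lt
    omega
  · rintro s t ⟨hG, hB, h1, h2⟩
    have hbd := hF.bd s t hG hB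
    have hic : i s < c s := by
      have a1 := hbd.i3
      have a2 := hbd.c1
      omega
    have hM1 : M (y s) ≤ g (i s) := (hbd.geo.My.trans hbd.i4).le
    refine ⟨g (i s), i s, g (i s) + g pf - 2 * (M (y s) + M (y' s) - M (z s)), hM1,
      hone (i s) pf _ (hic.trans h2) (hpart s t hG hB (i s) pf hic.le h2.le hpfN), ?_⟩
    rw [hv1]
    linarith
  · intro hS
    have hv2 : var M 0 N + M 0 + M N = M 0 + var M 0 pl + g pl := by
      rw [var_add (u := M) (Nat.zero_le pl) hplN, hVarS.2.1 M pl N hplN hdn, hgM pl hpl]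
      ring
    rw [hv2]
    have hnoL : ∀ s t, ¬ CrL N g M Bad c pl s t := by
      rintro s t ⟨hG, -, h1, -⟩
      have h2 := (hall t hG.right).2
      have h3 := hG.lt
      omega
    by_cases hR : ∃ s t, CrR N g M Bad c pl s t
    · obtain ⟨s, t, hC⟩ := hR
      obtain ⟨hG, hB, h1, h2⟩ := id hC
      have hbd := hF.bd s t hG hB
      have hcj : c s < j s := by
        have a1 := hbd.c2
        have a2 := hbd.j3
        omega
      have hjN : j s ≤ N := by
        have a1 := hbd.j1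
        have a2 := hbd.geo.rN
        omega
      have hM1 : M (y' s) ≤ g (j s) := (hbd.geo.Mz.trans hbd.j4).le
      obtain ⟨p, T, hCh, hval⟩ := hS.B s t hC (g (j s)) hM1
      refine ⟨p, j s, T + (g pl + g (j s) - 2 * (M (y s) + M (y' s) - M (z s))), hjN,
        happ _ _ _ _ _ hCh (hone pl (j s) _ (h2.trans hcj)
          (hpart s t hG hB pl (j s) h2.le hcj.le hjN)), ?_⟩
      linarith
    · have hnoR : ∀ s t, ¬ CrR N g M Bad c pl s t := fun s t h => hR ⟨s, t, h⟩
      obtain ⟨p, T, hCh, hval⟩ := hS.A hnoR hnoL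
      exact ⟨p, pl, T, hplN, hCh, by linarith⟩

end Pool.Agent.Helper53_DP.VInF
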