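import Pool.Agent.Helper53_DP.V2

/-!
# Row LP (squad TMX, MP_b61ad0_an): the left side of a bad gap
-/

namespace Pool.Agent.Helper53_DP.VLP

open Pool.Agent.TMX hiding DB Fam CrR CrL Sta Ord LP SB SC SA InF HAd BGx
open Pool.Agent.Helper53_DP.V2

open Finset
open Pool.Agent.Helper37_EM (var)

theorem lP : LP := by
  intro hV hCh hOrd N g M Bad y z y' r c i j hF s t hG hB hS
  obtain ⟨ch1, -, -, -, ch5⟩ := hCh N g
  obtain ⟨-, o2, o3, o4⟩ := hOrd N g M Bad y z y' r c i j hF s t hG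
  obtain ⟨-, -, -, o3d, -⟩ := o3 hB
  constructor
  · intro hsc
    have hL : ∀ s₂ t₂, ¬ CrL N g M Bad c s s₂ t₂ := by
      rintro s₂ t₂ ⟨k1, k2, k3, k4⟩
      rcases o2 s₂ t₂ k1 k3 with h | h
      · rw [h] at k4
        omega
      · have hlt := hG.lt
        obtain ⟨m1, -, -⟩ := o4 s₂ t₂ k1 hB k2 (by omega)
        omega
    by_cases hR : ∀ s₁ t₁, ¬ CrR N g M Bad c s s₁ t₁
    · obtain ⟨p, T, h1, h2⟩ := hS.A hR hL
      exact ⟨s, p, T, le_rfl, hF.lo s t hG hB, hsc, h1, by linarith⟩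
    · push Not at hR
      obtain ⟨s₁, t₁, hc⟩ := hR
      obtain ⟨k1, k2, k3, k4⟩ := id hc
      have bd := hF.bd s₁ t₁ k1 k2
      have hlt := k1.lt
      obtain ⟨-, -, -, q4⟩ := hOrd N g M Bad y z y' r c i j hF s₁ t₁ k1
      obtain ⟨m1, m2, -⟩ := q4 s t hG k2 hB (by omega)
      have e1 := bd.c2
      have e2 := bd.j3
      have e3 := bd.j1
      have e4 := bd.geo.Mz
      have e5 := bd.j4
      have e6 := bd.geo.rN
      obtain ⟨p, T, h1, h2⟩ := hS.B s₁ t₁ hc (g (j s₁)) (by linarith)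
      have hvg := hV N g M hF.max (y s₁) (z s₁) (y' s₁) (r s₁) (c s₁) (y s₁) (y' s₁) s (j s₁)
        ⟨bd.geo, bd.top, bd.c1, bd.c2, bd.cy, bd.cy', bd.cmin, bd.geo, le_rfl, le_rfl, k4.le,
          by omega, by omega, Or.inl rfl, Or.inl rfl⟩
      have hch := ch1 _ _ _ _ _ h1 (ch5 s (j s₁) _ (by omega) hvg)
      exact ⟨j s₁, p, _, by omega, by omega, by omega, hch, by linarith⟩
  · intro hcs
    exact hS.C s t ⟨hG, hB, le_rfl, hcs⟩

end Pool.Agent.Helper53_DP.VLP
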