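import Pool.Agent.Helper53_DP.V2

set_option autoImplicit false

namespace Pool.Agent.Helper53_DP.VOrd

open Finset
open Pool.Agent.TMX hiding DB Fam CrR CrL Sta Ord LP SB SC SA InF HAd BGx
open Pool.Agent.Helper53_DP.V2
open Pool.Agent.Helper51_Max (I IsMax)
open Pool.Agent.Helper37_EM (var)

theorem ord : Ord := by
  intro N g M Bad y z y' r c i j hF s t hG
  have base : ∀ s t, Gap N g M s t → Bad s →
      z s < c s + r s ∧ c s < z s + r s ∧ z s ≤ y s + r s ∧ s < z s ∧ z s < t ∧ z s < y s + r s := by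
    intro s t hG hb
    have b := hF.bd s t hG hb
    have lo := hF.lo s t hG hb
    have hi := hF.hi s t hG hb
    have h1 := b.geo.yz
    have h2 := b.geo.zz
    have h3 := b.geo.hy
    have h4 := b.c1
    have h5 := b.c2
    have h6 := b.i1
    have h7 := b.i2
    omega
  refine ⟨?_, ?_, ?_, ?_⟩
  · intro s₁ t₁ hG₁ h
    have hlt := hG.lt
    have hlt₁ := hG₁.lt
    rcases Nat.lt_or_ge s t₁ with h1 | h1
    · right
      have h2 : t₁ = t := by
        by_contra hne
        exact hG.none t₁ h1 (by omega) hG₁.right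
      subst h2
      refine ⟨?_, rfl⟩
      by_contra hne
      rcases Nat.lt_or_ge s₁ s with h3 | h3
      · exact hG₁.none s h3 (by omega) hG.left
      · exact hG.none s₁ (by omega) (by omega) hG₁.left
    · exact Or.inl h1
  · intro s₁ t₁ hG₁ h
    rcases Nat.lt_or_ge s₁ t with h1 | h1
    · left
      by_contra hne
      exact hG.none s₁ (by omega) h1 hG₁.left
    · exact Or.inr h1
  · intro hb
    obtain ⟨a1, a2, a3, a4, a5, -⟩ := base s t hG hb
    exact ⟨a1, a2, a3, a4, a5⟩
  · intro s₁ t₁ hG₁ hb hb₁ hlt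
    obtain ⟨a1, a2, a3, a4, a5, -⟩ := base s t hG hb
    obtain ⟨b1, b2, b3, b4, b5, b6⟩ := base s₁ t₁ hG₁ hb₁
    have hd := hF.dis s t s₁ t₁ hG hG₁ hb hb₁ hlt
    omega

end Pool.Agent.Helper53_DP.VOrd
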