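import Pool.Agent.Helper53_DP.V2

set_option autoImplicit false

namespace Pool.Agent.Helper53_DP.VSA

open Pool.Agent.TMX hiding DB Fam CrR CrL Sta Ord LP SB SC SA InF HAd BGx
open Pool.Agent.Helper53_DP.V2

open Finset
open Pool.Agent.Helper51_Max (I IsMax)
open Pool.Agent.Helper37_EM (var)

/-- Row SA. -/
theorem sA : SA := by
  intro hVP hVB hNC hB hO hLP hLR N g M Bad y z y' r c i j F s t G S hR hL
  have hM := F.max
  have hst := G.lt
  have htN : t ≤ N := G.right.1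
  obtain ⟨hB1, -, -, -, hB5⟩ := hB N g
  obtain ⟨-, hO2, -, -⟩ := hO N g M Bad y z y' r c i j F s t G
  have hva : var M 0 t = var M 0 s + var M s t :=
    Pool.Agent.Helper37_EM.var_add (Nat.zero_le s) hst.le
  have hQ : var M s t = g s + g t - 2 * Qv g M s t := by
    unfold Qv
    ring
  by_cases hbad : Bad s
  · have hct : c s ≤ t := by
      by_contra h
      exact hR s t ⟨G, hbad, le_rfl, by omega⟩
    have D := F.bd s t G hbad
    have hlo := F.lo s t G hbad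
    have hhi := F.hi s t G hbad
    have hQb := F.Q s t G hbad
    have hyz := D.geo.yz
    have hzz := D.geo.zz
    obtain ⟨h1, h2⟩ := hLP hVB hB hO N g M Bad y z y' r c i j F s t G hbad S
    rcases Nat.lt_or_ge (c s) s with hc | hc
    · obtain ⟨Q', p, T, hQ1, hch, hle⟩ := h2 hc
      have hV := hVP N g M hM s t (y s) Q' hlo (by omega) htN hQ1
      refine ⟨p, T + (g s + g t - 2 * Q'), hB1 _ _ _ _ _ hch (hB5 s t Q' hst hV), ?_⟩
      rw [hva, hQ, hQb]
      linarith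
    · obtain ⟨x, p, T, hsx, hxy, hxc, hch, hle⟩ := h1 hc
      have hV := hVB N g M hM (y s) (z s) (y' s) (r s) (c s) (y s) (y' s) x t
        { geo := D.geo, top := D.top, c1 := D.c1, c2 := D.c2, cy := D.cy, cy' := D.cy',
          cmin := D.cmin, geo1 := D.geo, hY := le_rfl, hY' := le_rfl, pc := hxc, cp := hct,
          pN := htN, Y1 := Or.inl rfl, Y2 := Or.inl rfl }
      refine ⟨p, T + (g x + g t - 2 * (M (y s) + M (y' s) - M (z s))),
        hB1 _ _ _ _ _ hch (hB5 x t _ (by omega) hV), ?_⟩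
      rw [hva, hQ, hQb]
      linarith
  · obtain ⟨v, hsv, hvt, hQv⟩ := F.plain s t G hbad
    by_cases hcr : ∃ s₁ t₁, CrR N g M Bad c s s₁ t₁
    · obtain ⟨s₁, t₁, hcr⟩ := hcr
      obtain ⟨G₁, hb₁, ht₁, hc₁⟩ := hcr
      have hct : c s₁ ≤ t := by
        by_contra h
        exact hR s₁ t₁ ⟨G₁, hb₁, by omega, by omega⟩
      have hhi := F.hi s₁ t₁ G₁ hb₁
      obtain ⟨Q', T, hQ', hch, hT⟩ := hLR hVB hVP hNC hB N g M hM (y s₁) (z s₁) (y' s₁) (r s₁)
        (c s₁) (i s₁) (j s₁) s t v (F.bd s₁ t₁ G₁ hb₁) (by omega) hc₁.le hct hst htN hsv hvt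
      obtain ⟨p, T₀, hch₀, hle⟩ := S.B s₁ t₁ ⟨G₁, hb₁, ht₁, hc₁⟩ Q' hQ'
      refine ⟨p, T₀ + T, hB1 _ _ _ _ _ hch₀ hch, ?_⟩
      rw [hva, hQ, hQv, hT]
      linarith
    · have hnl : ∀ s₂ t₂, ¬ CrL N g M Bad c s s₂ t₂ := by
        intro s₂ t₂ hcl
        obtain ⟨G₂, hb₂, hs₂, hc₂⟩ := hcl
        rcases hO2 s₂ t₂ G₂ hs₂ with h | h
        · rw [h] at hb₂
          exact hbad hb₂
        · exact hL s₂ t₂ ⟨G₂, hb₂, h, by omega⟩
      obtain ⟨p, T, hch, hle⟩ := S.A (fun s₁ t₁ h => hcr ⟨s₁, t₁, h⟩) hnl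
      have hV := hVP N g M hM s t v (M v) hsv hvt htN le_rfl
      refine ⟨p, T + (g s + g t - 2 * M v), hB1 _ _ _ _ _ hch (hB5 s t _ hst hV), ?_⟩
      rw [hva, hQ, hQv]
      linarith

end Pool.Agent.Helper53_DP.VSA

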