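import Pool.Agent.Helper53_DP.V2Asm
import Pool.Agent.Helper21_TMX.Tan
import Pool.Agent.Helper65_TMX.Refl
import Pool.Agent.Helper49_TMX.GapI
import Pool.Agent.Helper58_TMX.Dec
import Pool.Agent.Helper16_TMX.VarS
import Pool.Agent.Helper85_TMX.K1
import Pool.Agent.Helper12_TMX.EndG
import Pool.Agent.Helper54_TMX.Reach
import Pool.Agent.Helper81_TMX.MeanS
import Pool.Agent.Helper60_TMX.GapB
import Pool.Agent.Helper8_TMX.CMin
import Pool.Agent.Helper40_TMX.VB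
import Pool.Agent.Helper24_TMX.PEx
import Pool.Agent.Helper49_TMX.BadP
import Pool.Agent.Helper16_TMX.GShape
import Pool.Agent.Helper49_TMX.Refl2
import Pool.Agent.Helper27_TMX.ChB
import Pool.Agent.Helper70_TMX.ChR
import Pool.Agent.Helper30_TMX.ChD
import Pool.Agent.Helper11_TMX.ChF
import Pool.Agent.Helper81_TMX.VBad
import Pool.Agent.Helper5_TMX.VBadL
import Pool.Agent.Helper12_TMX.GeoR
import Pool.Agent.Helper25_TMX.GainP
import Pool.Agent.Helper23_TMX.Gain0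
import Pool.Agent.Helper70_TMX.LastK
import Pool.Agent.Helper16_TMX.XR3
import Pool.Agent.Helper29_TMX.Gain1b
import Pool.Agent.Helper77_TMX.Gain3b
import Pool.Agent.Helper43_TMX.VPl
import Pool.Agent.Helper47_TMX.NC
import Pool.Agent.Helper16_TMX.LR
import Pool.Agent.Helper27_TMX.LL
import Pool.Agent.Helper53_DP.V2DB
import Pool.Agent.Helper53_DP.V2Ord
import Pool.Agent.Helper53_DP.V2LP
import Pool.Agent.Helper53_DP.V2SB
import Pool.Agent.Helper53_DP.V2SC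
import Pool.Agent.Helper53_DP.V2SA
import Pool.Agent.Helper53_DP.V2InF
import Pool.Agent.Helper77_TMX.IndP
import Pool.Agent.Helper53_DP.V2HAd
import Pool.Agent.Helper53_DP.V2BGx

/-!
# All rows
-/

set_option autoImplicit false

namespace Pool.Agent.Helper53_DP.V2

open Pool.Agent.TMX

theorem vBadR' : VBadR :=
  Pool.Agent.TMX.H81.vBad Pool.Agent.TMX.H5.vBadL Pool.Agent.TMX.H12.geoR Pool.Agent.TMX.H65.refl
    Pool.Agent.TMX.H49.gapI Pool.Agent.TMX.H25.gainP Pool.Agent.TMX.H23.gain0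
    Pool.Agent.TMX.H70.lastK Pool.Agent.TMX.H16.xr3 Pool.Agent.TMX.H29.gain1b
    Pool.Agent.TMX.H77Gain3b.gain3b

theorem vPlR' : VPlR := Pool.Agent.TMX.H43.vPl Pool.Agent.TMX.H54.reach Pool.Agent.TMX.H81.meanS

theorem rows : Rows where
  tan := Pool.Agent.TMX.H21.tan
  refl := Pool.Agent.TMX.H65.refl
  gapI := Pool.Agent.TMX.H49.gapI
  dec := Pool.Agent.TMX.H58.dec
  varS := Pool.Agent.TMX.H16.varS
  k1 := Pool.Agent.TMX.H85.k1
  endG := Pool.Agent.TMX.H12.endG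
  reach := Pool.Agent.TMX.H54.reach
  meanS := Pool.Agent.TMX.H81.meanS
  gapB := Pool.Agent.TMX.H60.gapB
  cMin := Pool.Agent.TMX.H8.cMin
  vb := Pool.Agent.TMX.H40.vB
  pex := Pool.Agent.TMX.H24.pEx
  badP := Pool.Agent.TMX.H49.badP
  gshape := Pool.Agent.TMX.H16.gShape
  refl2 := Pool.Agent.TMX.H49.refl2
  chB := Pool.Agent.TMX.H27.chB
  chR := Pool.Agent.TMX.H70.chR
  chD := Pool.Agent.TMX.H30.chD
  chF := Pool.Agent.TMX.H11.chF
  vBadR := vBadR'
  vPlR := vPlR'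
  nc := Pool.Agent.TMX.H47.nc
  lr := Pool.Agent.TMX.H16.lr
  ll := Pool.Agent.TMX.H27.lL
  db := Pool.Agent.Helper53_DP.VDB.dB
  ord := Pool.Agent.Helper53_DP.VOrd.ord
  lp := Pool.Agent.Helper53_DP.VLP.lP
  sb := Pool.Agent.Helper53_DP.VSB.sB
  sc := Pool.Agent.Helper53_DP.VSC.sC
  sa := Pool.Agent.Helper53_DP.VSA.sA
  inF := Pool.Agent.Helper53_DP.VInF.inF
  indP := Pool.Agent.TMX.H77.indP
  hAd := Pool.Agent.Helper53_DP.VHAd.hAd
  bGx := Pool.Agent.Helper53_DP.VBGx.bGx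

end Pool.Agent.Helper53_DP.V2
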