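import Pool.Agent.Helper53_DP.V2

/-!
# Assembly of the fifth list: detached local maxima with disjoint balls
-/

set_option autoImplicit false

namespace Pool.Agent.Helper53_DP.V2

open Finset
open Pool.Agent.TMX hiding DB Fam CrR CrL Sta Ord LP SB SC SA InF HAd BGx
open Pool.Agent.Helper53_DP.V2
open Pool.Agent.Helper51_Max (I IsMax)
open Pool.Agent.Helper37_EM (var)

/-- the rows used -/
structure Rows : Prop where
  tan : Tan
  refl : Refl
  gapI : GapI
  dec : Dec
  varS : VarS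
  k1 : K1
  endG : EndG
  reach : Reach
  meanS : MeanS
  gapB : GapB
  cMin : CMin
  vb : VB
  pex : PEx
  badP : BadP
  gshape : GShape
  refl2 : Refl2
  chB : ChB
  chR : ChR
  chD : ChD
  chF : ChF
  vBadR : VBadR
  vPlR : VPlR
  nc : NC
  lr : LR
  ll : LL
  db : DB
  ord : Ord
  lp : LP
  sb : SB
  sc : SC
  sa : SA
  inF : InF
  indP : IndP
  hAd : HAd
  bGx : BGx

variable {N : ℕ} {g M : ℕ → ℝ}

theorem gap_unique {s t t' : ℕ} (h : Gap N g M s t) (h' : Gap N g M s t') : t = t' := by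
  rcases lt_trichotomy t t' with h1 | h1 | h1
  · exact absurd h.right (h'.none t h.lt h1)
  · exact h1
  · exact absurd h'.right (h.none t' h'.lt h1)

theorem classify (R : Rows) (h : IsMax N g M) (Z rad : ℕ → ℕ)
    (hZ : Cen N g M Z rad) (hA : HypA N g M) (s t : ℕ) (hG : Gap N g M s t) :
    (∃ v, s ≤ v ∧ v ≤ t ∧ Qv g M s t = M v) ∨
      ∃ y y' c i j p q, BD N g M y (Z q) y' (rad q) c i j ∧ s ≤ y ∧ y' ≤ t ∧
        Qv g M s t = M y + M y' - M (Z q) ∧ Dt N g M p q := by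
  rcases R.gshape R.dec R.varS R.tan R.gapB R.badP N g M h s t hG (hA s t hG) with
    hv | ⟨y, z, y', r, G, h1, h2, -, u1, d2, -, hQ, -, -⟩
  · exact Or.inl hv
  · obtain ⟨p, q, c, i, j, hq, hdt, hbd⟩ :=
      R.bGx R.tan R.gapB R.badP R.cMin N g M Z rad h hZ s t y z y' r hG G h1 h2 u1 d2
    exact Or.inr ⟨y, y', c, i, j, p, q, hbd, h1, h2, by rw [hq]; exact hQ, hdt⟩

theorem disjoint_sharp (R : Rows) (h : IsMax N g M) (Z rad : ℕ → ℕ)
    (hZ : Cen N g M Z rad) {i₀ : ℕ} (hi : i₀ ≤ N) (h0 : g i₀ = 0) :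
    ((N : ℝ) + 1) * var M 0 N ≤ N * var g 0 N := by
  classical
  have hA : HypA N g M := R.hAd R.tan R.gapB R.badP N g M Z rad h hZ
  obtain ⟨pf, pl, h1, h2, h3, h4, h5, h6⟩ := R.pex R.tan R.endG R.k1 N g M h
  set Bad : ℕ → Prop := fun s => ∃ t, Gap N g M s t ∧ ¬ ∃ v, s ≤ v ∧ v ≤ t ∧ Qv g M s t = M v
    with hBad
  have key : ∀ s, ∃ y y' c i j p q : ℕ, Bad s → ∀ t, Gap N g M s t →
      (BD N g M y (Z q) y' (rad q) c i j ∧ s ≤ y ∧ y' ≤ t ∧
        Qv g M s t = M y + M y' - M (Z q) ∧ Dt N g M p q) := by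
    intro s
    by_cases hb : Bad s
    · obtain ⟨t, hG, hn⟩ := hb
      rcases classify R h Z rad hZ hA s t hG with hv | ⟨y, y', c, i, j, p, q, hk⟩
      · exact absurd hv hn
      · refine ⟨y, y', c, i, j, p, q, fun _ t' hG' => ?_⟩
        obtain rfl := gap_unique hG hG'
        exact hk
    · exact ⟨0, 0, 0, 0, 0, 0, 0, fun hb' => absurd hb' hb⟩
  choose y y' c i j p q hD using key
  have F : Fam N g M Bad y (fun s => Z (q s)) y' (fun s => rad (q s)) c i j := by
    refine ⟨h, ?_, fun s t hG hb => (hD s hb t hG).1, fun s t hG hb => (hD s hb t hG).2.1,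
      fun s t hG hb => (hD s hb t hG).2.2.1, fun s t hG hb => (hD s hb t hG).2.2.2.1, ?_⟩
    · intro s t hG hnb
      by_contra hcon
      exact hnb ⟨t, hG, hcon⟩
    · intro s t s₁ t₁ hG hG₁ hb hb₁ hlt
      obtain ⟨b, lo, hi', -, dt⟩ := hD s hb t hG
      obtain ⟨b₁, lo₁, hi₁, -, dt₁⟩ := hD s₁ hb₁ t₁ hG₁
      have hts : t ≤ s₁ := by
        by_contra hcon
        exact hG.none s₁ hlt (by omega) hG₁.left
      obtain ⟨u1, u2, -⟩ := hZ.cen _ _ dt
      obtain ⟨w1, w2, -⟩ := hZ.cen _ _ dt₁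
      have e1 := b.geo.zz
      have e2 := b.geo.rz
      have e3 := b.geo.rN
      have e4 := b₁.geo.yz
      have e5 := b₁.geo.rz
      have e6 := b₁.geo.rN
      have e7 := b.geo.yz
      have e8 := b.geo.hy
      have e9 := b₁.geo.hy
      have hqq : q s < q s₁ := by
        by_contra hcon
        -- the plateau of `q s` would contain `Z (q s)`, `y' s` and `Z (q s₁)`
        have hMz : M (Z (q s)) = M (q s) := (dt.2.2.1 _ u1 u2).1
        have hMy : M (y' s) = M (q s) := (dt.2.2.1 _ (by omega) (by omega)).1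
        have := b.geo.Mz
        linarith
      have hd := hZ.dis _ _ _ _ dt dt₁ hqq
      show Z (q s) + rad (q s) + rad (q s₁) ≤ Z (q s₁)
      by_contra hcon
      have m1 : ∀ x, x = max (Z (q s)) (Z (q s₁) - rad (q s₁)) ∨
          x = max (Z (q s)) (Z (q s₁) - rad (q s₁)) + 1 →
          x ∈ I N (Z (q s)) (rad (q s)) ∩ I N (Z (q s₁)) (rad (q s₁)) := by
        intro x hx
        rw [mem_inter]
        unfold Pool.Agent.Helper51_Max.I
        rw [mem_Icc, mem_Icc]
        omega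
      have h9 := card_le_card (show ({max (Z (q s)) (Z (q s₁) - rad (q s₁)),
          max (Z (q s)) (Z (q s₁) - rad (q s₁)) + 1} : Finset ℕ) ⊆
          I N (Z (q s)) (rad (q s)) ∩ I N (Z (q s₁)) (rad (q s₁)) from by
        intro x hx
        rw [mem_insert, mem_singleton] at hx
        exact m1 x hx)
      rw [card_pair (by omega)] at h9
      omega
  have hI := R.inF R.vBadR R.chB R.varS R.ord N g M Bad y _ y' _ c i j F pf pl h1 h2 h6 h4 h5
  have hSt : ∀ x, Pk N g M x → Sta N g M Bad y (fun s => Z (q s)) y' c x := by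
    refine R.indP N g M _ pf h1 (fun p hp => (h6 p hp).1) hI.1 fun s t hG hS => ?_
    exact ⟨R.sa R.vPlR R.vBadR R.nc R.chB R.ord R.lp R.lr N g M Bad y _ y' _ c i j F s t hG hS,
      R.sb R.vPlR R.vBadR R.chB R.ord R.lp N g M Bad y _ y' _ c i j F s t hG hS,
      R.sc R.vPlR R.vBadR R.nc R.chB R.ord R.lp R.lr R.ll R.db N g M Bad y _ y' _ c i j F s t hG hS⟩
  obtain ⟨a, b, T, hb, hch, hval⟩ := hI.2 (hSt pl h2)
  have hfin := R.chF R.chB R.chR R.chD R.vb R.reach R.meanS R.refl R.refl2 N g M h i₀ hi h0 a b T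
    hch hb
  refine le_trans (mul_le_mul_of_nonneg_left ?_ (by positivity)) hfin
  linarith

end Pool.Agent.Helper53_DP.V2
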