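import Pool.Agent.Helper53_DP.Graph
import Pool.Agent.Helper53_DP.V2All

/-!
# The sharp inequality on the path graph
-/

set_option autoImplicit false

open Finset

namespace Pool.Agent.Helper53_DP

open Pool.Agent.Helper51_Max
open Pool.Agent.Helper37_EM (isMax_ext ext_sub var var_ext var_abs_ext)
open SimpleGraph (pathGraph)

theorem graph_touching (N : ℕ) (f : Fin (N + 1) → ℝ) (Z : Fin (N + 1) → Fin (N + 1))
    (R : Fin (N + 1) → ℕ)
    (hZ : ∀ p q, IsDetached (fun v => |f v|) (maximal (pathGraph (N + 1)) f) p q →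
      p ≤ Z q ∧ Z q ≤ q ∧
      (∑ w ∈ Helper51_Max.ball (pathGraph (N + 1)) (Z q) (R q), |f w|) /
        ((Helper51_Max.ball (pathGraph (N + 1)) (Z q) (R q)).card : ℝ) =
        maximal (pathGraph (N + 1)) f (Z q))
    (hB : ∀ p q p' q', IsDetached (fun v => |f v|) (maximal (pathGraph (N + 1)) f) p q →
      IsDetached (fun v => |f v|) (maximal (pathGraph (N + 1)) f) p' q' → q ≠ q' →
      (Helper51_Max.ball (pathGraph (N + 1)) (Z q) (R q) ∩
        Helper51_Max.ball (pathGraph (N + 1)) (Z q') (R q')).card ≤ 1) :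
    variation (pathGraph (N + 1)) (maximal (pathGraph (N + 1)) f) ≤
      (1 - 1 / (((N + 1 : ℕ)) : ℝ)) * variation (pathGraph (N + 1)) f := by
  obtain ⟨x, -, hx⟩ := exists_min_image (univ : Finset (Fin (N + 1))) (fun v => |f v|)
    ⟨0, mem_univ _⟩
  have hC : V2.Cen N (Helper51_Max.ext (fun v => |f v| - |f x|))
      (Helper51_Max.ext (fun v => maximal (pathGraph (N + 1)) f v - |f x|))
      (fun q => if hq : q < N + 1 then (Z ⟨q, hq⟩).val else 0)
      (fun q => if hq : q < N + 1 then R ⟨q, hq⟩ else 0) := by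
    constructor
    · intro p q hd
      obtain ⟨hp, hq, hd'⟩ := isDetached_of_detN hd
      obtain ⟨k1, k2, h1⟩ := hZ _ _ hd'
      have h2 : (0 : ℝ) < (Helper51_Max.ball (pathGraph (N + 1)) (Z ⟨q, hq⟩) (R ⟨q, hq⟩)).card := by
        exact_mod_cast ball_card_pos (pathGraph (N + 1)) (Z ⟨q, hq⟩) (R ⟨q, hq⟩)
      rw [div_eq_iff h2.ne'] at h1
      simp only [dif_pos hq]
      refine ⟨Fin.le_def.mp k1, Fin.le_def.mp k2, ?_⟩
      rw [ext_sub _ _ (Z ⟨q, hq⟩).isLt, ← card_ball (Z ⟨q, hq⟩) (R ⟨q, hq⟩),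
        ← sum_ball _ (Z ⟨q, hq⟩) (R ⟨q, hq⟩), sum_sub_distrib, sum_const, nsmul_eq_mul, h1]
      ring
    · intro p q p' q' hd hd' hlt
      obtain ⟨hp, hq, hd1⟩ := isDetached_of_detN hd
      obtain ⟨hp', hq', hd2⟩ := isDetached_of_detN hd'
      have h1 := hB _ _ _ _ hd1 hd2 (fun he => by
        have := congrArg Fin.val he
        simp only at this
        omega)
      simp only [dif_pos hq, dif_pos hq']
      rw [← ball_map (Z ⟨q, hq⟩), ← ball_map (Z ⟨q', hq'⟩), ← map_inter, card_map]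
      exact h1
  have key := V2.disjoint_sharp V2.rows (isMax_ext f |f x| fun v => hx v (mem_univ _)) _ _ hC
    (i₀ := x.val) (by have := x.isLt; omega) (by rw [ext_sub _ _ x.isLt]; simp)
  rw [var_ext] at key
  have e2 := var_abs_ext f |f x|
  have hN : (0 : ℝ) ≤ N := Nat.cast_nonneg N
  rw [factor, div_mul_eq_mul_div, le_div_iff₀ (by linarith)]
  have h5 := mul_le_mul_of_nonneg_left e2 hN
  linarith

end Pool.Agent.Helper53_DP
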